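import Pool.Agent.Helper73.QQ.Geo
import Pool.Agent.Helper73.QX.Main

/-!
# Frobenius is semisimple for the `p`-covers of the plane of small degree
-/

set_option autoImplicit false

open IntermediateField Module

namespace Pool.Agent.Helper73.QQ

open Pool.Agent.Helper75.QC Pool.Agent.Helper73.QX Pool.Agent.Helper73.QW Pool.Agent.Helper40.SD

section

variable {Ω L : Type} [Field Ω] [Field L]

theorem le_mul {a b : ℕ} {P Q : MvPolynomial (Fin 2) Ω} {D E : ℕ}
    (hP : ∀ m ∈ P.support, a * m 0 + b * m 1 ≤ D) (hQ : ∀ m ∈ Q.support, a * m 0 + b * m 1 ≤ E)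
    (m : Fin 2 →₀ ℕ) (hm : m ∈ (P * Q).support) : a * m 0 + b * m 1 ≤ D + E := by
  classical
  obtain ⟨m₁, h₁, m₂, h₂, rfl⟩ := Finset.mem_add.1 (MvPolynomial.support_mul _ _ hm)
  have e1 := hP m₁ h₁
  have e2 := hQ m₂ h₂
  have e3 : a * (m₁ + m₂) 0 + b * (m₁ + m₂) 1 =
      (a * m₁ 0 + b * m₁ 1) + (a * m₂ 0 + b * m₂ 1) := by
    rw [Finsupp.add_apply, Finsupp.add_apply]
    ring
  omega

/-- the functions `P / g ^ 2`, `deg P ≤ D` -/
def frac (a b D : ℕ) (g : MvPolynomial (Fin 2) Ω) {K : Type} [Field K] [Algebra Ω K] (x y : K) :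
    AddSubmonoid K where
  carrier := {c | ∃ P : MvPolynomial (Fin 2) Ω, (∀ m ∈ P.support, a * m 0 + b * m 1 ≤ D) ∧
    c * MvPolynomial.aeval ![x, y] g ^ 2 = MvPolynomial.aeval ![x, y] P}
  zero_mem' := ⟨0, fun m hm => by simp at hm, by simp⟩
  add_mem' := by
    classical
    rintro c d ⟨P, hP, h1⟩ ⟨Q, hQ, h2⟩
    refine ⟨P + Q, fun m hm => ?_, ?_⟩
    · rcases Finset.mem_union.1 (MvPolynomial.support_add hm) with h | h
      · exact hP m h
      · exact hQ m h
    · rw [add_mul, h1, h2, map_add]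

variable [Algebra (ZMod 2) Ω] [IsAlgClosed Ω] [CharZero L] [IsAlgClosed L] {K : Type} [Field K]
  [Algebra Ω K]

theorem semisimple_two (T : Theory 2 Ω L) {a b r : ℕ} {f : Fin r → MvPolynomial (Fin 2) Ω}
    {B g ε h : MvPolynomial (Fin 2) Ω} {x y t : K} {w : Fin r → K} (hab : 0 < a + b) (hg0 : g ≠ 0)
    (hgeh : g ^ 2 = ε * h ^ 3) (hE : wdeg a b ε + wdeg a b h ≤ 2 * (a + b))
    (hf : ∀ i, wdeg a b (f i) + 2 * wdeg a b ε ≤ 6 * (a + b))
    (hB : wdeg a b B + wdeg a b ε ≤ 4 * (a + b)) (hxy : AlgebraicIndependent Ω ![x, y])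
    (htop : adjoin Ω ({x, y, t} ∪ Set.range w) = ⊤)
    (ht : t ^ 4 + t = MvPolynomial.aeval ![x, y] B / MvPolynomial.aeval ![x, y] (ε * h ^ 2))
    (hw : ∀ i, w i ^ 2 - w i =
      MvPolynomial.aeval ![x, y] (f i) / MvPolynomial.aeval ![x, y] g ^ 2 ∨
      w i ^ 2 - w i = t ^ 3 +
        MvPolynomial.aeval ![x, y] (f i) / MvPolynomial.aeval ![x, y] g ^ 2) {e : ℕ}
    (he : Even e) {φ : K →ₐ[Ω] K} (hx : φ x = x ^ 2 ^ e) (hy : φ y = y ^ 2 ^ e)
    (hφt : φ t = t ^ 2 ^ e) (hφw : ∀ i, φ (w i) = w i ^ 2 ^ e) :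
    End.IsSemisimple (T.map 2 φ) := by
  have hchΩ : CharP Ω 2 := charP_of_injective_algebraMap (algebraMap (ZMod 2) Ω).injective 2
  have hch := char_two (Ω := Ω) K
  have h2 : (2 : K) = 0 := CharTwo.two_eq_zero
  have hgv : MvPolynomial.aeval ![x, y] g ≠ 0 := fun h0 =>
    hg0 (algebraicIndependent_iff.1 hxy g h0)
  have heh : MvPolynomial.aeval ![x, y] (ε * h ^ 2) ≠ 0 := by
    intro h0
    apply pow_ne_zero 2 hgv
    rw [← map_pow, hgeh, show ε * h ^ 3 = ε * h ^ 2 * h by ring, map_mul, h0, zero_mul]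
  have hxm : x ∈ adjoin Ω {x, y} := subset_adjoin Ω _ (by simp)
  have hym : y ∈ adjoin Ω {x, y} := subset_adjoin Ω _ (by simp)
  have hP : ∀ P : MvPolynomial (Fin 2) Ω, MvPolynomial.aeval ![x, y] P ∈ adjoin Ω {x, y} :=
    fun P => aeval_mem_of _ hxm hym P
  obtain ⟨D0, hD0⟩ : ∃ D0, D0 = 6 * (a + b) - 2 * wdeg a b ε := ⟨_, rfl⟩
  have hD : ∀ c ∈ frac a b D0 g x y, c ∈ adjoin Ω {x, y} := by
    rintro c ⟨P, -, hc⟩
    have h3 : c = MvPolynomial.aeval ![x, y] P / MvPolynomial.aeval ![x, y] g ^ 2 := by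
      rw [← hc, mul_div_cancel_right₀ _ (pow_ne_zero 2 hgv)]
    rw [h3]
    exact div_mem (hP P) (pow_mem (hP g) 2)
  have hB' : (t ^ 4 + t) * MvPolynomial.aeval ![x, y] (ε * h ^ 2) =
      MvPolynomial.aeval ![x, y] B := by
    rw [ht, div_mul_cancel₀ _ heh]
  have hw' : ∀ i, w i ^ 2 + w i ∈ frac a b D0 g x y ∨
      w i ^ 2 + w i + t ^ 3 ∈ frac a b D0 g x y := by
    intro i
    have hfi : ∀ m ∈ (f i).support, a * m 0 + b * m 1 ≤ D0 := fun m hm => by
      have h3 := le_wdeg a b (f i) m hm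
      have h4 := hf i
      omega
    rcases hw i with h1 | h1
    · refine Or.inl ⟨f i, hfi, ?_⟩
      have h3 : w i ^ 2 + w i =
          MvPolynomial.aeval ![x, y] (f i) / MvPolynomial.aeval ![x, y] g ^ 2 := by
        rw [← h1]
        linear_combination w i * h2
      rw [h3, div_mul_cancel₀ _ (pow_ne_zero 2 hgv)]
    · refine Or.inr ⟨f i, hfi, ?_⟩
      have h3 : w i ^ 2 + w i + t ^ 3 =
          MvPolynomial.aeval ![x, y] (f i) / MvPolynomial.aeval ![x, y] g ^ 2 := by
        linear_combination h1 + (w i + t ^ 3) * h2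
      rw [h3, div_mul_cancel₀ _ (pow_ne_zero 2 hgv)]
  have hhd : ∀ m ∈ h.support, a * m 0 + b * m 1 ≤ wdeg a b h := fun m hm => le_wdeg a b h m hm
  have hεd : ∀ m ∈ ε.support, a * m 0 + b * m 1 ≤ wdeg a b ε := fun m hm => le_wdeg a b ε m hm
  have hBd : ∀ m ∈ B.support, a * m 0 + b * m 1 ≤ 4 * (a + b) - wdeg a b ε := fun m hm => by
    have h3 := le_wdeg a b B m hm
    omega
  have hDt : ∀ c : Ω, algebraMap Ω K c * (t ^ 4 + t) ∈ frac a b D0 g x y := by
    intro c
    refine ⟨MvPolynomial.C c * B * h, ?_, ?_⟩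
    · have e0 : ∀ m ∈ (MvPolynomial.C c : MvPolynomial (Fin 2) Ω).support,
          a * m 0 + b * m 1 ≤ 0 := by
        classical
        intro m hm
        rw [MvPolynomial.mem_support_iff, MvPolynomial.coeff_C] at hm
        have : m = 0 := by
          by_contra h
          rw [if_neg (fun h0 => h h0.symm)] at hm
          exact hm rfl
        rw [this]
        simp
      intro m hm
      have e1 := le_mul (le_mul e0 hBd) hhd m hm
      omega
    · rw [map_mul, map_mul, MvPolynomial.aeval_C, ← hB', ← map_pow (MvPolynomial.aeval ![x, y]) g,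
        hgeh]
      simp only [map_mul, map_pow]
      ring
  have hC : QCov Ω x y (insert t (Set.range w)) :=
    { fin := (Set.finite_range w).insert t
      top := by
        rw [← htop]
        congr 1
        ext s
        simp only [Set.mem_union, Set.mem_insert_iff, Set.mem_singleton_iff, Set.mem_range]
        tauto
      indep := hxy
      gen := by
        rintro s (rfl | ⟨i, rfl⟩)
        · left
          rw [ht]
          exact div_mem (hP B) (hP _)
        · right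
          rcases hw' i with h1 | h1
          · refine ⟨0, by simp, ?_, ?_⟩
            · rw [zero_pow four_ne_zero, add_zero]
              exact zero_mem _
            · rw [zero_pow three_ne_zero, add_zero]
              exact hD _ h1
          · refine ⟨t, by simp, ?_, hD _ h1⟩
            rw [ht]
            exact div_mem (hP B) (hP _) }
  have : FiniteDimensional L (T.H 2 K) := T.fin 2 K hC.fg
  apply KT.semisimple_of_iSup
  rw [eq_top_iff]
  intro z _
  refine hC.mem_all T (frac a b D0 g x y) hD ?_ ?_ hDt hw' he hx hy hφt hφw z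
  · rintro c ⟨P, hP1, hP2⟩
    exact geoQ_of_degree a b hab g ε h 0 P _ _ hgeh hεd hhd hE (fun m hm => by simp at hm)
      (fun m hm => (hP1 m hm).trans hD0.le) hgv (by simp) hP2
  · rintro c ⟨P, hP1, hP2⟩
    exact geoQ_of_degree a b hab g ε h B P _ _ hgeh hεd hhd hE hBd
      (fun m hm => (hP1 m hm).trans hD0.le) hgv hB' hP2

end

theorem main {p : ℕ} [hp : Fact p.Prime] {Ω L : Type} [Field Ω] [Algebra (ZMod p) Ω]
    [IsAlgClosure (ZMod p) Ω] [Field L] [CharZero L] [IsAlgClosed L] (T : Theory p Ω L)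
    {K K₀ : Type} [Field K] [Algebra Ω K] (hK : IsWildPlane p Ω K) [Field K₀] [Algebra Ω K₀]
    (hfin : (⊤ : IntermediateField Ω K₀).FG) (ι : K₀ →ₐ[Ω] K)
    (hι : ∀ a : K, IsAlgebraic ι.fieldRange a) {e : ℕ} (φ₀ : K₀ →ₐ[Ω] K₀)
    (h₀ : IsFrob (p ^ e) φ₀) {V : Type} [AddCommGroup V] [Module L V] (Fr : Module.End L V)
    (r : V →ₗ[L] T.H 2 K₀) (hV : IsH2 T (p ^ e) φ₀ Fr r) : Fr.IsSemisimple := by
  have : IsAlgClosed Ω := IsAlgClosure.isAlgClosed (ZMod p)
  obtain ⟨a, b, n, f, B, g, ε, h, x, y, t, w, hab, hg0, hgeh, hE, hf, hB, hxy, htop, htp, ht,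
    hw⟩ := hK
  have hfinS : ({x, y, t} ∪ Set.range w : Set K).Finite :=
    (Set.toFinite _).union (Set.finite_range w)
  refine finish T ({x, y, t} ∪ Set.range w) hfinS htop ?_ hfin ι hι φ₀ h₀ Fr r hV
  intro e φ he hφ
  by_cases hp2 : p = 2
  · subst hp2
    exact semisimple_two T hab hg0 hgeh (by simpa using hE) (fun i => by simpa using hf i) hB hxy
      htop ht hw he (hφ x (by simp)) (hφ y (by simp)) (hφ t (by simp)) fun i => hφ (w i) (by simp)
  · have ht0 : t = 0 := htp.resolve_right hp2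
    have hw' : ∀ i, w i ^ p - w i =
        MvPolynomial.aeval ![x, y] (f i) / MvPolynomial.aeval ![x, y] g ^ 2 := by
      intro i
      rcases hw i with h1 | h1
      · exact h1
      · rw [h1, ht0, zero_pow three_ne_zero, zero_add]
    have htop' : adjoin Ω ({x, y} ∪ Set.range w) = ⊤ := by
      rw [eq_top_iff, ← htop, adjoin_le_iff]
      rintro s ((rfl | rfl | hs) | hs)
      · exact subset_adjoin _ _ (by simp)
      · exact subset_adjoin _ _ (by simp)
      · rw [Set.mem_singleton_iff] at hs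
        rw [hs, ht0]
        exact zero_mem _
      · exact subset_adjoin _ _ (Or.inr hs)
    exact (cov_of hxy htop' hw').semisimple T (aux_prime p) (geo_comb hab hg0 hgeh hE hf hxy hw')
      (Helper35.WW.wildCurve_aux T.toBaseTheory) e φ (hφ x (by simp)) (hφ y (by simp))
      fun i => hφ (w i) (by simp)

end Pool.Agent.Helper73.QQ
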