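import Mathlib

/-!
# The equations `t ^ 4 + t = b`, `v ^ 2 + v = t ^ 3 + c` in characteristic two
-/

set_option autoImplicit false

open IntermediateField

namespace Pool.Agent.Helper73.QQ

section

variable {Ω : Type} [Field Ω] [IsAlgClosed Ω]

/-- the elements of an extension which are algebraic over an algebraically closed field -/
theorem mem_range_of_algebraic {E : Type} [Field E] [Algebra Ω E] {z : E} (h : IsAlgebraic Ω z) :
    ∃ c : Ω, algebraMap Ω E c = z := by
  have h1 : IsIntegral Ω z := h.isIntegral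
  have h2 : (minpoly Ω z).degree = 1 :=
    IsAlgClosed.degree_eq_one_of_irreducible Ω (minpoly.irreducible h1)
  exact minpoly.mem_range_of_degree_eq_one Ω z h2

variable [CharP Ω 2]

omit [IsAlgClosed Ω] in
theorem char_two (E : Type) [Field E] [Algebra Ω E] : CharP E 2 :=
  charP_of_injective_algebraMap (algebraMap Ω E).injective 2

/-- `t ^ 4 + t` determines `t` up to an element of the field with four elements -/
theorem exists_four {E : Type} [Field E] [Algebra Ω E] {t t' : E}
    (h : t' ^ 4 + t' = t ^ 4 + t) : ∃ α : Ω, α ^ 4 = α ∧ t' = t + algebraMap Ω E α := by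
  have := char_two (Ω := Ω) E
  obtain ⟨z, hz⟩ : ∃ z, z = t' + t := ⟨_, rfl⟩
  have h2 : (2 : E) = 0 := CharTwo.two_eq_zero
  have h1 : z ^ 4 + z = 0 := by
    rw [hz]
    linear_combination h + (2 * t' ^ 3 * t + 3 * t' ^ 2 * t ^ 2 + 2 * t' * t ^ 3 + t ^ 4 + t) * h2
  have h3 : IsAlgebraic Ω z := by
    refine ⟨Polynomial.X ^ 4 + Polynomial.X, ?_, ?_⟩
    · intro h0
      have := congrArg (fun q => Polynomial.coeff q 1) h0
      simp [Polynomial.coeff_X_pow] at this
    · rw [map_add, map_pow, Polynomial.aeval_X, h1]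
  obtain ⟨α, hα⟩ := mem_range_of_algebraic h3
  refine ⟨α, ?_, ?_⟩
  · apply (algebraMap Ω E).injective
    rw [map_pow, hα]
    linear_combination h1 - z * h2
  · rw [hα, hz]
    linear_combination -t * h2

/-- `v ^ 2 + v` and `t ^ 3` -/
theorem exists_two {E : Type} [Field E] [Algebra Ω E] {t v v' : E} {α : Ω} (hα : α ^ 4 = α)
    (h : v' ^ 2 + v' + (t + algebraMap Ω E α) ^ 3 = v ^ 2 + v + t ^ 3) :
    ∃ β : Ω, β ^ 2 + β = α ^ 3 ∧
      v' = v + algebraMap Ω E α ^ 2 * t + algebraMap Ω E β := by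
  have := char_two (Ω := Ω) E
  have h2 : (2 : E) = 0 := CharTwo.two_eq_zero
  obtain ⟨z, hz⟩ : ∃ z, z = v' + v + algebraMap Ω E α ^ 2 * t := ⟨_, rfl⟩
  obtain ⟨A, hA⟩ : ∃ A, A = algebraMap Ω E α := ⟨_, rfl⟩
  rw [← hA] at h hz ⊢
  have hA4 : A ^ 4 = A := by
    rw [hA, ← map_pow, hα]
  have h1 : z ^ 2 + z = A ^ 3 := by
    rw [hz]
    linear_combination h + t ^ 2 * hA4 + (v' * v + A ^ 2 * t * v' + A ^ 2 * t * v + v ^ 2 + v -
      A ^ 2 * t - A * t ^ 2 - A ^ 3) * h2
  have h3 : IsAlgebraic Ω z := by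
    refine ⟨Polynomial.X ^ 2 + Polynomial.X - Polynomial.C (α ^ 3), ?_, ?_⟩
    · intro h0
      have h5 := congrArg (fun q => Polynomial.coeff q 1) h0
      simp only [Polynomial.coeff_sub, Polynomial.coeff_add, Polynomial.coeff_X_pow,
        Polynomial.coeff_X_one, Polynomial.coeff_C, Polynomial.coeff_zero] at h5
      norm_num at h5
    · rw [map_sub, map_add, map_pow, Polynomial.aeval_X, Polynomial.aeval_C, h1, map_pow, hA,
        sub_self]
  obtain ⟨β, hβ⟩ := mem_range_of_algebraic h3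
  refine ⟨β, ?_, ?_⟩
  · apply (algebraMap Ω E).injective
    rw [map_add, map_pow, hβ, h1, map_pow, hA]
  · rw [hβ, hz]
    linear_combination -(v + A ^ 2 * t) * h2

end

end Pool.Agent.Helper73.QQ
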