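import Pool.Agent.Helper35.WW.Curve
import Pool.Agent.Helper73.QQ.Shift

/-!
# The quaternion group of automorphisms of the curve `u ^ 2 + u = s ^ 3` in characteristic two
-/

set_option autoImplicit false

open IntermediateField Module

namespace Pool.Agent.Helper73.QQ

open Pool.Agent.Helper75.QC Pool.Agent.Helper73.QX

section

variable {Ω L : Type} [Field Ω] [IsAlgClosed Ω] [Algebra (ZMod 2) Ω] [Field L]

/-- the automorphism `s ↦ s + α ^ 2`, `u ↦ u + α s + α ^ 3 + β` -/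
structure IsAuto {C : Type} [Field C] [Algebra Ω C] (u s : C) (α β : Ω) (τ : C →ₐ[Ω] C) :
    Prop where
  hu : τ u = u + algebraMap Ω C α * s + algebraMap Ω C (α ^ 3 + β)
  hs : τ s = s + algebraMap Ω C α ^ 2

variable {C : Type} [Field C] [Algebra Ω C] {u s : C}

theorem exists_auto (hu : Transcendental Ω u) (hs : u ^ 2 - u = s ^ 3)
    (huniv : ∀ (E : Type) [Field E] [Algebra Ω E] (u' s' : E), Transcendental Ω u' →
      u' ^ 2 - u' = s' ^ 3 → ∃ τ : C →ₐ[Ω] E, τ u = u' ∧ τ s = s') (α β : Ω) (hα : α ^ 4 = α)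
    (hβ : β ^ 2 + β = α ^ 3) : ∃ τ : C →ₐ[Ω] C, IsAuto u s α β τ := by
  have hchΩ : CharP Ω 2 := charP_of_injective_algebraMap (algebraMap (ZMod 2) Ω).injective 2
  have hch := char_two (Ω := Ω) C
  have h2 : (2 : C) = 0 := CharTwo.two_eq_zero
  obtain ⟨A, hA⟩ : ∃ A, A = algebraMap Ω C α := ⟨_, rfl⟩
  obtain ⟨B, hB⟩ : ∃ B, B = algebraMap Ω C β := ⟨_, rfl⟩
  have hA4 : A ^ 4 = A := by rw [hA, ← map_pow, hα]
  have hB2 : B ^ 2 + B = A ^ 3 := by rw [hA, hB, ← map_pow, ← map_add, hβ, map_pow]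
  have htr : Transcendental Ω (u + A * s + (A ^ 3 + B)) := by
    intro h
    have hmem : ∀ z : C, z ∈ algebraicClosure Ω C ↔ IsAlgebraic Ω z := fun z =>
      mem_algebraicClosure_iff
    have hAm : A ∈ algebraicClosure Ω C := by
      rw [hA]
      exact (algebraicClosure Ω C).algebraMap_mem _
    have hBm : B ∈ algebraicClosure Ω C := by
      rw [hB]
      exact (algebraicClosure Ω C).algebraMap_mem _
    have h1 := (hmem _).2 h
    have h3 : (s + A ^ 2) ^ 3 ∈ algebraicClosure Ω C := by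
      have h4 : (s + A ^ 2) ^ 3 = (u + A * s + (A ^ 3 + B)) ^ 2 - (u + A * s + (A ^ 3 + B)) := by
        linear_combination -hs + 3 * s * hA4 - hB2 + (s ^ 2 * A ^ 2 + 2 * s * A + B - u * A * s
          - u * A ^ 3 - u * B - A ^ 4 * s - A * s * B - A ^ 3 * B) * h2
      rw [h4]
      exact sub_mem (pow_mem h1 2) h1
    have h5 : s + A ^ 2 ∈ algebraicClosure Ω C :=
      (hmem _).2 (IsAlgebraic.of_pow (by norm_num) ((hmem _).1 h3))
    have h6 : s ∈ algebraicClosure Ω C := by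
      have := sub_mem h5 (pow_mem hAm 2)
      rwa [add_sub_cancel_right] at this
    apply hu
    rw [← hmem]
    have h7 := sub_mem (sub_mem h1 (add_mem (pow_mem hAm 3) hBm)) (mul_mem hAm h6)
    have h8 : u + A * s + (A ^ 3 + B) - (A ^ 3 + B) - A * s = u := by ring
    rwa [h8] at h7
  obtain ⟨τ, h3, h4⟩ := huniv C (u + A * s + (A ^ 3 + B)) (s + A ^ 2) htr (by
    linear_combination hs - 3 * s * hA4 + hB2 - (s ^ 2 * A ^ 2 + 2 * s * A + B - u * A * s
          - u * A ^ 3 - u * B - A ^ 4 * s - A * s * B - A ^ 3 * B) * h2)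
  refine ⟨τ, ⟨?_, ?_⟩⟩
  · rw [h3, map_add, map_pow, ← hA, ← hB]
  · rw [h4, ← hA]

omit [IsAlgClosed Ω] [Algebra (ZMod 2) Ω] in
theorem IsAuto.unique (hC : adjoin Ω {u, s} = ⊤) {α β : Ω} {σ τ : C →ₐ[Ω] C}
    (h : IsAuto u s α β σ) (h' : IsAuto u s α β τ) : σ = τ := by
  refine Pool.Agent.Helper75.QC.hom_ext {u, s} hC _ _ ?_
  rintro e (rfl | he)
  · rw [h.hu, h'.hu]
  · rw [Set.mem_singleton_iff] at he
    rw [he, h.hs, h'.hs]

omit [IsAlgClosed Ω] in
theorem IsAuto.comp {α β α' β' : Ω} {σ τ : C →ₐ[Ω] C}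
    (h : IsAuto u s α β σ) (h' : IsAuto u s α' β' τ) :
    IsAuto u s (α + α') (β + β' + α' ^ 2 * α) (σ.comp τ) := by
  have hchΩ : CharP Ω 2 := charP_of_injective_algebraMap (algebraMap (ZMod 2) Ω).injective 2
  have hch := char_two (Ω := Ω) C
  have h2 : (2 : C) = 0 := CharTwo.two_eq_zero
  constructor
  · rw [AlgHom.comp_apply, h'.hu, map_add, map_add, map_mul, h.hu, h.hs, AlgHom.commutes,
      AlgHom.commutes]
    simp only [map_add, map_mul, map_pow]
    linear_combination (-algebraMap Ω C α ^ 2 * algebraMap Ω C α' -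
      2 * algebraMap Ω C α * algebraMap Ω C α' ^ 2) * h2
  · rw [AlgHom.comp_apply, h'.hs, map_add, map_pow, h.hs, AlgHom.commutes]
    simp only [map_add]
    linear_combination (-algebraMap Ω C α * algebraMap Ω C α') * h2

variable [CharZero L] [IsAlgClosed L]

omit [CharZero L] [IsAlgClosed L] in
theorem map_comp_apply (T : BaseTheory Ω L) {σ τ : C →ₐ[Ω] C} (z : T.H 1 C) :
    T.map 1 (σ.comp τ) z = T.map 1 σ (T.map 1 τ z) :=
  LinearMap.congr_fun (T.map_comp 1 τ σ) z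

/-- `u ↦ u + 1` is `- 1` on the first cohomology -/
theorem IsAuto.neg (T : BaseTheory Ω L) (hs : u ^ 2 - u = s ^ 3) (hC : adjoin Ω {u, s} = ⊤)
    {ε : C →ₐ[Ω] C} (h : IsAuto u s 0 1 ε) (z : T.H 1 C) : T.map 1 ε z = -z := by
  have : Fact (Nat.Prime 2) := ⟨Nat.prime_two⟩
  have hchΩ : CharP Ω 2 := charP_of_injective_algebraMap (algebraMap (ZMod 2) Ω).injective 2
  have hch := char_two (Ω := Ω) C
  have h2 : (2 : C) = 0 := CharTwo.two_eq_zero
  have h1 : ε u = u + 1 := by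
    rw [h.hu]
    simp
  have h3 : ε s = s := by
    rw [h.hs]
    simp
  have h4 : ε.comp ε = AlgHom.id Ω C := by
    refine Pool.Agent.Helper75.QC.hom_ext {u, s} hC _ _ ?_
    rintro e (rfl | he)
    · rw [AlgHom.comp_apply, h1, map_add, map_one, h1, AlgHom.id_apply]
      linear_combination h2
    · rw [Set.mem_singleton_iff] at he
      rw [he, AlgHom.comp_apply, h3, h3, AlgHom.id_apply]
  have h5 : T.map 1 ε (T.map 1 ε z) = z := by
    rw [← map_comp_apply, h4]
    exact LinearMap.congr_fun (T.map_id 1 C) z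
  have h6 : z + T.map 1 ε z = 0 := by
    refine Helper35.WW.eq_zero_of_fixed (p := 2) T u s hs hC ε h1 h3 _ ?_
    rw [map_add, h5, add_comm]
  exact (neg_eq_of_add_eq_zero_right h6).symm

/-- the trace of an element of order four -/
theorem IsAuto.trace_zero (T : BaseTheory Ω L) (hu : Transcendental Ω u) (hs : u ^ 2 - u = s ^ 3)
    (hC : adjoin Ω {u, s} = ⊤)
    (huniv : ∀ (E : Type) [Field E] [Algebra Ω E] (u' s' : E), Transcendental Ω u' →
      u' ^ 2 - u' = s' ^ 3 → ∃ τ : C →ₐ[Ω] E, τ u = u' ∧ τ s = s') {α β : Ω} (hα : α ^ 4 = α)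
    (hα0 : α ≠ 0) {τ : C →ₐ[Ω] C} (h : IsAuto u s α β τ) :
    LinearMap.trace L (T.H 1 C) (T.map 1 τ) = 0 := by
  have hchΩ : CharP Ω 2 := charP_of_injective_algebraMap (algebraMap (ZMod 2) Ω).injective 2
  have hch := char_two (Ω := Ω) C
  have h2 : (2 : C) = 0 := CharTwo.two_eq_zero
  have h2Ω : (2 : Ω) = 0 := CharTwo.two_eq_zero
  have hα3 : α ^ 3 = 1 := by
    have h3 : α * (α ^ 3 - 1) = 0 := by linear_combination hα
    exact sub_eq_zero.1 ((mul_eq_zero.1 h3).resolve_left hα0)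
  -- an element `ω` of order three
  obtain ⟨ω, hω⟩ : ∃ ω : Ω, ω ^ 2 + ω + 1 = 0 := by
    obtain ⟨ω, hω⟩ := IsAlgClosed.exists_root
      (Polynomial.X ^ 2 + Polynomial.X + Polynomial.C (1 : Ω)) (by
        have : (Polynomial.X ^ 2 + Polynomial.X + Polynomial.C (1 : Ω)).degree = 2 := by
          compute_degree!
        rw [this]
        norm_num)
    refine ⟨ω, ?_⟩
    have := hω
    simpa [Polynomial.IsRoot] using this
  have hω3 : ω ^ 3 = 1 := by linear_combination (ω - 1) * hω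
  -- the element `α' = ω α`
  obtain ⟨α', hα'⟩ : ∃ α', α' = ω * α := ⟨_, rfl⟩
  have hα'4 : α' ^ 4 = α' := by
    rw [hα', mul_pow, hα]
    linear_combination α * ω * hω3
  have hα'3 : α' ^ 3 = 1 := by
    rw [hα', mul_pow, hω3, hα3, mul_one]
  have hωβ : ω ^ 2 + ω = α' ^ 3 := by
    rw [hα'3]
    linear_combination hω - h2Ω
  obtain ⟨σ, hσ⟩ := exists_auto hu hs huniv α' ω hα'4 hωβ
  obtain ⟨ε, hε⟩ := exists_auto hu hs huniv 0 1 (by norm_num) (by
    rw [zero_pow (by norm_num)]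
    linear_combination h2Ω)
  -- `σ ^ 2 = ε`
  have e1 : σ.comp σ = ε := by
    have h5 := hσ.comp hσ
    have h6 : α' + α' = 0 := by linear_combination α' * h2Ω
    have h7 : ω + ω + α' ^ 2 * α' = 1 := by linear_combination ω * h2Ω + hα'3
    rw [h6, h7] at h5
    exact h5.unique hC hε
  -- `σ τ = ε τ σ`
  have e2 : σ.comp τ = ε.comp (τ.comp σ) := by
    have h5 := hσ.comp h
    have h6 := hε.comp (h.comp hσ)
    have h7 : 0 + (α + α') = α' + α := by ring
    have h8 : 1 + (β + ω + α' ^ 2 * α) + (α + α') ^ 2 * 0 = ω + β + α ^ 2 * α' := by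
      rw [hα']
      linear_combination (ω ^ 2 - ω) * hα3 + hω - ω * h2Ω
    rw [h7, h8] at h6
    exact h5.unique hC h6
  have f1 : ∀ z : T.H 1 C, T.map 1 σ (T.map 1 σ z) = -z := by
    intro z
    rw [← map_comp_apply, e1, hε.neg T hs hC]
  have f2 : ∀ z : T.H 1 C, T.map 1 σ (T.map 1 τ z) = -T.map 1 τ (T.map 1 σ z) := by
    intro z
    rw [← map_comp_apply, e2, map_comp_apply, hε.neg T hs hC, map_comp_apply]
  have g1 : (T.map 1 σ : End L (T.H 1 C)) * T.map 1 σ = -1 := by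
    refine LinearMap.ext fun z => ?_
    rw [End.mul_apply, f1]
    rfl
  have g2 : (T.map 1 σ : End L (T.H 1 C)) * T.map 1 τ = -(T.map 1 τ * T.map 1 σ) := by
    refine LinearMap.ext fun z => ?_
    rw [End.mul_apply, f2]
    rfl
  have g3 : (T.map 1 σ : End L (T.H 1 C)) * (T.map 1 τ * T.map 1 σ) = T.map 1 τ := by
    rw [← mul_assoc, g2, neg_mul, mul_assoc, g1, mul_neg, mul_one, neg_neg]
  have g4 : LinearMap.trace L (T.H 1 C) (T.map 1 τ) = -LinearMap.trace L (T.H 1 C) (T.map 1 τ) := by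
    conv_lhs => rw [← g3, LinearMap.trace_mul_comm, mul_assoc, g1, mul_neg, mul_one, map_neg]
  have g5 : (2 : L) * LinearMap.trace L (T.H 1 C) (T.map 1 τ) = 0 := by
    linear_combination g4
  exact (mul_eq_zero.1 g5).resolve_left two_ne_zero

end

end Pool.Agent.Helper73.QQ
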