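import Pool.Agent.Helper73.QQ.Shift

/-!
# Galois extensions generated by elements `t`, `v` with `t ^ 4 + t = b`, `v ^ 2 + v = t ^ 3 + c`
-/

set_option autoImplicit false

open IntermediateField

namespace Pool.Agent.Helper73.QQ

/-- a criterion -/
theorem galois_of_stable {F N : Type} [Field F] [Field N] [Algebra F N] (S : Set N)
    (hfin : S.Finite) (htop : adjoin F S = ⊤) (hsep : ∀ s ∈ S, IsSeparable F s)
    (hst : ∀ (E : Type) [Field E] [Algebra F E] (i j : N →ₐ[F] E), ∀ s ∈ S, j s ∈ i.fieldRange) :
    FiniteDimensional F N ∧ IsGalois F N := by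
  have h1 : FiniteDimensional F (⊤ : IntermediateField F N) := by
    rw [← htop]
    have : Finite S := hfin
    exact finiteDimensional_adjoin fun s hs => (hsep s hs).isIntegral
  have h2 : FiniteDimensional F N := IntermediateField.topEquiv.toLinearEquiv.finiteDimensional
  have h3 : Algebra.IsSeparable F N := by
    have h4 : Algebra.IsSeparable F (adjoin F S) := (isSeparable_adjoin_iff_isSeparable F N).2 hsep
    rw [htop] at h4
    exact (AlgEquiv.Algebra.isSeparable_iff IntermediateField.topEquiv).1 h4
  have h5 : Normal F N := by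
    have : IsAlgClosure F (AlgebraicClosure N) :=
      ⟨inferInstance, Algebra.IsAlgebraic.trans F N (AlgebraicClosure N)⟩
    have : Normal F (AlgebraicClosure N) := IsAlgClosure.normal F _
    obtain ⟨i, hi⟩ : ∃ i : N →ₐ[F] AlgebraicClosure N, i = IsScalarTower.toAlgHom F N _ := ⟨_, rfl⟩
    have h6 : Normal F i.fieldRange := by
      rw [normal_iff_forall_map_le]
      intro σ
      rintro _ ⟨_, ⟨n, rfl⟩, rfl⟩
      have h7 : adjoin F S ≤ i.fieldRange.comap (σ.comp i) := by
        rw [adjoin_le_iff]
        intro s hs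
        exact hst _ i (σ.comp i) s hs
      rw [htop] at h7
      exact h7 (mem_top (x := n))
    have e : i.fieldRange ≃ₐ[F] N := (AlgEquiv.ofInjectiveField i : N ≃ₐ[F] i.fieldRange).symm
    exact Normal.of_algEquiv e
  exact ⟨h2, ⟨⟩⟩

section

variable {Ω : Type} [Field Ω] [IsAlgClosed Ω] [CharP Ω 2]

/-- `s ^ 4 + s` is in the field `F`, or `s ^ 2 + s = t ^ 3 + c`, `t ^ 4 + t` and `c` in `F` -/
def IsGen {K : Type} [Field K] [Algebra Ω K] (F : IntermediateField Ω K) (s : K) : Prop :=
  s ^ 4 + s ∈ F ∨ ∃ t : K, t ^ 4 + t ∈ F ∧ s ^ 2 + s + t ^ 3 ∈ F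

theorem galois_of_gen {N : Type} [Field N] [Algebra Ω N] (F : IntermediateField Ω N) (S : Set N)
    (hfin : S.Finite) (htop : ∀ M : IntermediateField Ω N, F ≤ M → S ⊆ M → M = ⊤)
    (hS : ∀ s ∈ S, IsGen F s) : FiniteDimensional F N ∧ IsGalois F N := by
  have hchN := char_two (Ω := Ω) N
  have h2N : (2 : N) = 0 := CharTwo.two_eq_zero
  have h2F : (2 : F) = 0 := Subtype.ext h2N
  have hne : ∀ P : Polynomial F, P.Separable → P ≠ 0 := fun P hP => hP.ne_zero
  have hsep4 : ∀ s : N, s ^ 4 + s ∈ F → IsSeparable F s := by
    intro s hs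
    have h3 : (Polynomial.X ^ 4 + Polynomial.X - Polynomial.C (⟨_, hs⟩ : F)).Separable := by
      rw [Polynomial.separable_def]
      have h4 : Polynomial.derivative (Polynomial.X ^ 4 + Polynomial.X -
          Polynomial.C (⟨_, hs⟩ : F)) = 1 := by
        rw [Polynomial.derivative_sub, Polynomial.derivative_add, Polynomial.derivative_X_pow,
          Polynomial.derivative_X, Polynomial.derivative_C]
        have h5 : ((4 : ℕ) : F) = 0 := by
          have : ((4 : ℕ) : F) = 2 * 2 := by norm_num
          rw [this, h2F, zero_mul]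
        rw [h5, Polynomial.C_0, zero_mul, zero_add, sub_zero]
      rw [h4]
      exact isCoprime_one_right
    refine h3.of_dvd (minpoly.dvd F s ?_)
    rw [map_sub, map_add, map_pow, Polynomial.aeval_X, Polynomial.aeval_C]
    exact sub_self _
  refine galois_of_stable S hfin ?_ ?_ ?_
  · have h3 : (adjoin F S).restrictScalars Ω = ⊤ := by
      apply htop
      · intro c hc
        exact (adjoin F S).algebraMap_mem ⟨c, hc⟩
      · intro c hc
        exact subset_adjoin F S hc
    rw [eq_top_iff]
    intro c _
    have : c ∈ (adjoin F S).restrictScalars Ω := by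
      rw [h3]
      exact mem_top
    exact this
  · intro s hs
    rcases hS s hs with h | ⟨t, ht, h⟩
    · exact hsep4 s h
    · have ht' : t ∈ separableClosure F N := mem_separableClosure_iff.2 (hsep4 t ht)
      have hc : s ^ 2 + s ∈ separableClosure F N := by
        have h3 : s ^ 2 + s + t ^ 3 ∈ separableClosure F N :=
          (separableClosure F N).algebraMap_mem ⟨_, h⟩
        have h4 := sub_mem h3 (pow_mem ht' 3)
        rwa [add_sub_cancel_right] at h4
      have h2S : (2 : separableClosure F N) = 0 := Subtype.ext h2N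
      have h5 : IsSeparable (separableClosure F N) s := by
        have h3 : (Polynomial.X ^ 2 + Polynomial.X -
            Polynomial.C (⟨_, hc⟩ : separableClosure F N)).Separable := by
          rw [Polynomial.separable_def]
          have h4 : Polynomial.derivative (Polynomial.X ^ 2 + Polynomial.X -
              Polynomial.C (⟨_, hc⟩ : separableClosure F N)) = 1 := by
            rw [Polynomial.derivative_sub, Polynomial.derivative_add,
              Polynomial.derivative_X_pow, Polynomial.derivative_X, Polynomial.derivative_C]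
            have h5 : ((2 : ℕ) : separableClosure F N) = 0 := by
              rw [Nat.cast_ofNat, h2S]
            rw [h5, Polynomial.C_0, zero_mul, zero_add, sub_zero]
          rw [h4]
          exact isCoprime_one_right
        refine h3.of_dvd (minpoly.dvd _ s ?_)
        rw [map_sub, map_add, map_pow, Polynomial.aeval_X, Polynomial.aeval_C]
        exact sub_self _
      exact IsSeparable.of_algebra_isSeparable_of_isSeparable F h5
  · intro E _ _ i j s hs
    let alg : Algebra Ω E := ((algebraMap F E).comp (algebraMap Ω F)).toAlgebra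
    have tow : IsScalarTower Ω F E := IsScalarTower.of_algebraMap_eq fun _ => rfl
    have hΩ : ∀ c : Ω, algebraMap Ω E c ∈ i.fieldRange := fun c =>
      i.fieldRange.algebraMap_mem (algebraMap Ω F c)
    have hji : ∀ c ∈ F, j c = i c := by
      intro c hc
      exact (j.commutes ⟨c, hc⟩).trans (i.commutes ⟨c, hc⟩).symm
    have hfour : ∀ t : N, t ^ 4 + t ∈ F → ∃ α : Ω, α ^ 4 = α ∧ j t = i t + algebraMap Ω E α := by
      intro t ht
      apply exists_four
      have h3 := hji _ ht
      rwa [map_add, map_pow, map_add, map_pow] at h3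
    rcases hS s hs with h | ⟨t, ht, h⟩
    · obtain ⟨α, -, h3⟩ := hfour s h
      rw [h3]
      exact add_mem ⟨s, rfl⟩ (hΩ α)
    · obtain ⟨α, hα, h3⟩ := hfour t ht
      have h4 := hji _ h
      simp only [map_add, map_pow] at h4
      rw [h3] at h4
      obtain ⟨β, -, h5⟩ := exists_two hα h4
      rw [h5]
      exact add_mem (add_mem ⟨s, rfl⟩ (mul_mem (pow_mem (hΩ α) 2) ⟨t, rfl⟩)) (hΩ β)

end

end Pool.Agent.Helper73.QQ
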