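import Pool.Agent.Helper73.QQ.Span
import Pool.Agent.Helper73.QX.GeoPole

/-!
# The elliptic threefold `Y ^ 2 + g Y = e X ^ 3 + B X + C` is uniruled
-/

set_option autoImplicit false

open IntermediateField

namespace Pool.Agent.Helper73.QQ

open Pool.Agent.Helper75.QC Pool.Agent.Helper73.QX Pool.Agent.Helper73.QW Pool.Agent.Helper40.SD

section

variable {Ω : Type} [Field Ω] [IsAlgClosed Ω] {K : Type} [Field K] [Algebra Ω K]

/-- `Y ^ 2 + g Y = e X ^ 3 + B X + C`, `g ^ 2 = e h ^ 3` -/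
theorem geoQ_of_degree (a b : ℕ) (hab : 0 < a + b) (g e h B C : MvPolynomial (Fin 2) Ω)
    (De Dh : ℕ) (hgeh : g ^ 2 = e * h ^ 3)
    (he : ∀ m ∈ e.support, a * m 0 + b * m 1 ≤ De)
    (hh : ∀ m ∈ h.support, a * m 0 + b * m 1 ≤ Dh) (hE : De + Dh ≤ 2 * (a + b))
    (hB : ∀ m ∈ B.support, a * m 0 + b * m 1 ≤ 4 * (a + b) - De)
    (hC : ∀ m ∈ C.support, a * m 0 + b * m 1 ≤ 6 * (a + b) - 2 * De) {x y β γ : K}
    (hg0 : MvPolynomial.aeval ![x, y] g ≠ 0)
    (hβ : β * MvPolynomial.aeval ![x, y] (e * h ^ 2) = MvPolynomial.aeval ![x, y] B)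
    (hγ : γ * MvPolynomial.aeval ![x, y] g ^ 2 = MvPolynomial.aeval ![x, y] C) :
    GeoQ Ω x y β γ := by
  intro N _ _ ι X Y hXY
  have e0 : MvPolynomial.aeval ![ι x, ι y] g ≠ 0 := by
    rw [← map_aeval75 ι x y g]
    exact (map_ne_zero ι).2 hg0
  have e2 : ι β * (MvPolynomial.aeval ![ι x, ι y] e * MvPolynomial.aeval ![ι x, ι y] h ^ 2) =
      MvPolynomial.aeval ![ι x, ι y] B := by
    rw [← map_pow, ← map_mul, ← map_aeval75 ι x y (e * h ^ 2), ← map_aeval75 ι x y B, ← map_mul, hβ]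
  have e3 : ι γ * MvPolynomial.aeval ![ι x, ι y] g ^ 2 = MvPolynomial.aeval ![ι x, ι y] C := by
    rw [← map_aeval75 ι x y g, ← map_aeval75 ι x y C, ← map_pow, ← map_mul, hγ]
  have hv : MvPolynomial.aeval ![ι x, ι y] g ^ 2 =
      MvPolynomial.aeval ![ι x, ι y] e * MvPolynomial.aeval ![ι x, ι y] h ^ 3 := by
    rw [← map_pow, hgeh, map_mul, map_pow]
  have hh0 : MvPolynomial.aeval ![ι x, ι y] h ≠ 0 := by
    intro h0
    rw [h0, zero_pow (by norm_num), mul_zero] at hv
    exact pow_ne_zero 2 e0 hv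
  set Z : Option (Fin 2) → N := fun o => o.elim (MvPolynomial.aeval ![ι x, ι y] h * X)
    ![ι x, ι y] with hZ
  have hev : ∀ g : MvPolynomial (Fin 2) Ω,
      MvPolynomial.aeval Z (MvPolynomial.rename some g) = MvPolynomial.aeval ![ι x, ι y] g := by
    intro g
    rw [MvPolynomial.aeval_rename]
    rfl
  have hZn : MvPolynomial.aeval Z (MvPolynomial.X none : MvPolynomial (Option (Fin 2)) Ω) =
      MvPolynomial.aeval ![ι x, ι y] h * X := by
    rw [MvPolynomial.aeval_X]
    rfl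
  obtain ⟨c, hc⟩ : ∃ c, 2 * (a + b) = De + c := ⟨2 * (a + b) - De, by omega⟩
  set w : Option (Fin 2) → ℕ := fun o => o.elim c ![a, b] with hw
  have hsum : ∑ i, w i = a + b + c := by
    rw [Fintype.sum_option, Fin.sum_univ_two]
    change c + (a + b) = _
    omega
  have hwX : WD w c (MvPolynomial.X none : MvPolynomial (Option (Fin 2)) Ω) :=
    WD.X none
  have hgp : g ≠ 0 := by
    rintro rfl
    exact hg0 (map_zero _)
  have hgE : ∀ m ∈ g.support, a * m 0 + b * m 1 ≤ a + b + c := by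
    have h5 : ∀ m ∈ (g ^ 2).support, a * m 0 + b * m 1 ≤ De + 3 * Dh := by
      rw [hgeh]
      have he' : WD ![a, b] De e := fun m hm => by
        rw [Fin.sum_univ_two]
        have := he m hm
        change m 0 * a + m 1 * b ≤ _
        rwa [mul_comm (m 0), mul_comm (m 1)]
      have hh' : WD ![a, b] Dh h := fun m hm => by
        rw [Fin.sum_univ_two]
        have := hh m hm
        change m 0 * a + m 1 * b ≤ _
        rwa [mul_comm (m 0), mul_comm (m 1)]
      intro m hm
      have h6 := (he'.mul (hh'.pow 3)) m hm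
      rw [Fin.sum_univ_two] at h6
      change m 0 * a + m 1 * b ≤ _ at h6
      rwa [mul_comm (m 0), mul_comm (m 1)] at h6
    intro m hm
    have h6 := le_of_sq h5 m hm
    omega
  refine uni_in_quad w (by rw [hsum]; omega) (-MvPolynomial.rename some g)
    (MvPolynomial.rename some e * MvPolynomial.X none ^ 3 +
      (MvPolynomial.rename some B * MvPolynomial.X none +
      MvPolynomial.rename some C)) (Or.inr ?_) ?_ ?_ Z
    (MvPolynomial.aeval ![ι x, ι y] g * Y) ?_ _ ?_
  · rw [neg_ne_zero]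
    intro h0
    exact hgp (MvPolynomial.rename_injective _ (Option.some_injective _)
      (h0.trans (map_zero _).symm))
  · rw [hsum]
    exact (WD_rename hgE).neg
  · rw [hsum]
    refine WD.add (((WD_rename he).mul (hwX.pow 3)).mono (by omega)) (WD.add ?_
      ((WD_rename hC).mono (by omega)))
    exact ((WD_rename hB).mul hwX).mono (by omega)
  · simp only [map_add, map_mul, map_neg, map_pow, hZn, hev]
    linear_combination MvPolynomial.aeval ![ι x, ι y] g ^ 2 * hXY +
      MvPolynomial.aeval ![ι x, ι y] h * X * e2 + e3 + (X ^ 3 + ι β * X) * hv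
  · obtain ⟨M, hM⟩ : ∃ M : IntermediateField Ω N,
      M = adjoin Ω (Set.range Z ∪ {MvPolynomial.aeval ![ι x, ι y] g * Y}) := ⟨_, rfl⟩
    rw [← hM]
    have mZ : ∀ o, Z o ∈ M := fun o => by
      rw [hM]
      exact subset_adjoin _ _ (Or.inl ⟨o, rfl⟩)
    have mx : ι x ∈ M := mZ (some 0)
    have my : ι y ∈ M := mZ (some 1)
    have mX : MvPolynomial.aeval ![ι x, ι y] h * X ∈ M := mZ none
    have mY : MvPolynomial.aeval ![ι x, ι y] g * Y ∈ M := by
      rw [hM]
      exact subset_adjoin _ _ (Or.inr rfl)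
    rintro z (rfl | rfl | rfl | rfl)
    · exact mx
    · exact my
    · exact mem_of_mul _ (mem_of_val h _ _ _ mx my) hh0 mX
    · exact mem_of_mul _ (mem_of_val g _ _ _ mx my) e0 mY

end

end Pool.Agent.Helper73.QQ
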