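import Pool.Agent.Helper73.QQ.Twist

/-!
# Frobenius and the operator `∑ g, tr (g) g`
-/

set_option autoImplicit false

open IntermediateField Module

namespace Pool.Agent.Helper73.QQ

open Pool.Agent.Helper75.QC Pool.Agent.Helper73.QX Pool.Agent.Helper73.QW

theorem pow_four {R : Type} [Field R] {α : R} (h : α ^ 4 = α) {e : ℕ} (he : Even e) :
    α ^ 2 ^ e = α := by
  obtain ⟨k, rfl⟩ := he
  rw [← two_mul, pow_mul]
  have h1 : ∀ k : ℕ, α ^ (2 ^ 2) ^ k = α := by
    intro k
    induction k with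
    | zero => simp
    | succ k ih =>
      rw [pow_succ, pow_mul, ih]
      exact h
  exact h1 k

theorem beta_four {R : Type} [Field R] [CharP R 2] {α β : R} (h : α ^ 4 = α)
    (hβ : β ^ 2 + β = α ^ 3) : β ^ 4 = β := by
  have h2 : (2 : R) = 0 := CharTwo.two_eq_zero
  linear_combination (β ^ 2 - β + α ^ 3 + 1) * hβ + α ^ 2 * h + (α ^ 3 - β - β * α ^ 3) * h2

section

variable {Ω L : Type} [Field Ω] [IsAlgClosed Ω] [Algebra (ZMod 2) Ω] [Field L]
  {K : Type} [Field K] [Algebra Ω K] {x y : K} {S : Set K}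

theorem QCov.commute_frob (hC : QCov Ω x y S) {e : ℕ} (he : Even e) {φ : K →ₐ[Ω] K}
    (hx : φ x = x ^ 2 ^ e) (hy : φ y = y ^ 2 ^ e) (hS : ∀ s ∈ S, φ s = s ^ 2 ^ e) (g : Gp Ω x y) :
    (toHom g).comp φ = φ.comp (toHom g) := by
  have : Fact (Nat.Prime 2) := ⟨Nat.prime_two⟩
  have hchΩ : CharP Ω 2 := charP_of_injective_algebraMap (algebraMap (ZMod 2) Ω).injective 2
  have hchK := char_two (Ω := Ω) K
  refine Pool.Agent.Helper75.QC.hom_ext ({x, y} ∪ S) hC.top _ _ ?_
  rintro s ((rfl | hs) | hs)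
  · rw [AlgHom.comp_apply, AlgHom.comp_apply, hx, map_pow, toHom_x, hx]
  · rw [Set.mem_singleton_iff] at hs
    rw [hs, AlgHom.comp_apply, AlgHom.comp_apply, hy, map_pow, toHom_y, hy]
  · rw [AlgHom.comp_apply, AlgHom.comp_apply, hS s hs, map_pow]
    have hfour : ∀ t : K, t ^ 4 + t ∈ adjoin Ω {x, y} → ∃ α : Ω, α ^ 4 = α ∧
        toHom g t = t + algebraMap Ω K α := by
      intro t ht
      apply exists_four
      have h3 := fix_of_mem (toHom g) (toHom_x g) (toHom_y g) ht
      simp only [map_add, map_pow] at h3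
      exact h3
    rcases hC.gen s hs with h | ⟨t, ht, h1, h2⟩
    · obtain ⟨α, hα, h3⟩ := hfour s h
      rw [h3, map_add, hS s hs, add_pow_char_pow, ← map_pow, pow_four hα he, AlgHom.commutes]
    · obtain ⟨α, hα, h3⟩ := hfour t h1
      have h4 := fix_of_mem (toHom g) (toHom_x g) (toHom_y g) h2
      simp only [map_add, map_pow] at h4
      rw [h3] at h4
      obtain ⟨β, hβ, h5⟩ := exists_two hα h4
      have h6 : φ t = t ^ 2 ^ e := by
        rcases ht with rfl | ht
        · rw [map_zero, zero_pow (pow_ne_zero _ two_ne_zero)]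
        · exact hS t ht
      rw [h5, map_add, map_add, map_mul, map_pow, hS s hs, h6, AlgHom.commutes,
        AlgHom.commutes, add_pow_char_pow, add_pow_char_pow, mul_pow, ← pow_mul,
        mul_comm 2 (2 ^ e), pow_mul, ← map_pow (algebraMap Ω K) α, pow_four hα he,
        ← map_pow (algebraMap Ω K) β, pow_four (beta_four hα hβ) he]

/-- the coefficients -/
noncomputable def cc (L : Type) [Field L] (t v : K) (g : Gp Ω x y) : L := by
  classical
  exact if toHom g t = t then (if toHom g v = v then 1 else -1) else 0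

theorem QCov.good [CharZero L] [IsAlgClosed L] (T : Theory 2 Ω L) (hC : QCov Ω x y S) {t v : K}
    (ht : t ^ 4 + t ∈ adjoin Ω {x, y}) (hv : v ^ 2 + v + t ^ 3 ∈ adjoin Ω {x, y})
    (hG : GeoQ Ω x y (t ^ 4 + t) (v ^ 2 + v + t ^ 3)) {e : ℕ} (he : Even e) {φ : K →ₐ[Ω] K}
    (hx : φ x = x ^ 2 ^ e) (hy : φ y = y ^ 2 ^ e) (hS : ∀ s ∈ S, φ s = s ^ 2 ^ e)
    [Fintype (Gp Ω x y)] (z : T.H 2 K) :
    ∑ g : Gp Ω x y, cc L t v g • T.map 2 (toHom g) z ∈ ⨆ c, End.eigenspace (T.map 2 φ) c := by
  classical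
  have : Fact (Nat.Prime 2) := ⟨Nat.prime_two⟩
  have hchΩ : CharP Ω 2 := charP_of_injective_algebraMap (algebraMap (ZMod 2) Ω).injective 2
  have hchK := char_two (Ω := Ω) K
  have h2Ω : (2 : Ω) = 0 := CharTwo.two_eq_zero
  obtain ⟨C, N, iC, jC, iN, jN, u, s, a, b, hu, hs, hCt, hb, hN, huniv⟩ :=
    exists_as_curve 2 (Ω := Ω) Nat.prime_three K
  have hchC := char_two (Ω := Ω) C
  have hsh : ∀ g : Gp Ω x y, ∃ α β : Ω, α ^ 4 = α ∧ β ^ 2 + β = α ^ 3 ∧
      toHom g t = t + algebraMap Ω K α ∧
      toHom g v = v + algebraMap Ω K α ^ 2 * t + algebraMap Ω K β := fun g =>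
    exists_shifts ht hv (toHom g) (toHom_x g) (toHom_y g)
  choose α β hα hβ hα' hβ' using hsh
  have hB : ∀ g : Gp Ω x y, ∃ τ : C →ₐ[Ω] C, IsAuto u s (α g) (β g) τ := fun g =>
    exists_auto hu hs huniv (α g) (β g) (hα g) (hβ g)
  choose B hB using hB
  have hq0 : (2 : ℕ) ^ e ≠ 0 := pow_ne_zero _ two_ne_zero
  obtain ⟨ψ, hF1, hF2⟩ := huniv C (u ^ 2 ^ e) (s ^ 2 ^ e) (by
    intro h
    exact hu (IsAlgebraic.of_pow (Nat.pos_of_ne_zero hq0) h)) (by
    have h1 : (u ^ 2 ^ e) ^ 2 - u ^ 2 ^ e = (u ^ 2 - u) ^ 2 ^ e := by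
      rw [sub_pow_char_pow, ← pow_mul, ← pow_mul, mul_comm 2]
    rw [h1, hs, ← pow_mul, ← pow_mul, mul_comm 3])
  have hfinC : (⊤ : IntermediateField Ω C).FG := by
    rw [← hCt]
    exact fg_adjoin_of_finite (Set.toFinite _)
  have : FiniteDimensional L (T.H 1 C) := T.fin 1 C hfinC
  have hmem := sum_trace_mem' two_ne_zero T a b x y u e φ ψ hC.fg hfinC (by
      intro k
      have : FiniteDimensional (adjoin Ω {x, y}) K := hC.galois.1
      exact Algebra.IsAlgebraic.isAlgebraic k) (fun k => sq_pow_ne (by norm_num) hu hs k hCt) hb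
    (hC.isFrob hx hy hS) (by
      unfold IsFrob
      rw [eq_top_iff, ← hCt, adjoin_le_iff]
      rintro v (rfl | hv)
      · exact subset_adjoin _ _ hF1
      · rw [Set.mem_singleton_iff] at hv
        rw [hv]
        exact subset_adjoin _ _ hF2) (fun g : Gp Ω x y => toHom g) B
    (hC.commute_frob he hx hy hS) (by
      intro g
      refine Pool.Agent.Helper75.QC.hom_ext {u, s} hCt _ _ ?_
      rintro c (rfl | hc)
      · rw [AlgHom.comp_apply, AlgHom.comp_apply, hF1, map_pow, (hB g).hu]
        simp only [map_add, map_mul, map_pow, AlgHom.commutes]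
        rw [hF1, hF2, add_pow_char_pow, add_pow_char_pow, add_pow_char_pow, mul_pow, ← pow_mul,
          mul_comm 3, pow_mul, ← map_pow (algebraMap Ω C) (α g), pow_four (hα g) he,
          ← map_pow (algebraMap Ω C) (β g), pow_four (beta_four (hα g) (hβ g)) he]
      · rw [Set.mem_singleton_iff] at hc
        rw [hc, AlgHom.comp_apply, AlgHom.comp_apply, hF2, map_pow, (hB g).hs, map_add, map_pow,
          AlgHom.commutes, hF2, add_pow_char_pow, ← pow_mul, mul_comm 2 (2 ^ e), pow_mul,
          ← map_pow (algebraMap Ω C) (α g), pow_four (hα g) he])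
    (hC.sum_zero T.toBaseTheory ht hv hG u s hs hCt a b hN α β hα hα' hβ' B hB) z
  -- the traces
  obtain ⟨z0, hz0⟩ := Helper35.WW.exists_ne_zero (p := 2) T.toBaseTheory u s hu hs hCt
  have hD : (Module.finrank L (T.H 1 C) : L) ≠ 0 := by
    rw [Nat.cast_ne_zero]
    have : Nontrivial (T.H 1 C) := ⟨⟨z0, 0, hz0⟩⟩
    exact Module.finrank_pos.ne'
  have htr : ∀ g : Gp Ω x y, LinearMap.trace L (T.H 1 C) (T.map 1 (B g)) =
      (Module.finrank L (T.H 1 C) : L) * cc L t v g := by
    intro g
    unfold cc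
    by_cases h1 : toHom g t = t
    · have h3 : α g = 0 := by
        have h4 := hα' g
        rw [h1] at h4
        have h5 : algebraMap Ω K (α g) = 0 := by linear_combination -h4
        exact (map_eq_zero _).1 h5
      have h4 := hB g
      have h5 := hβ g
      have h6 := hβ' g
      rw [h3, map_zero, zero_pow two_ne_zero, zero_mul, add_zero] at h6
      rw [h3, zero_pow three_ne_zero] at h5
      rw [if_pos h1]
      by_cases h2 : toHom g v = v
      · have h7 : β g = 0 := by
          rw [h2] at h6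
          have h5 : algebraMap Ω K (β g) = 0 := by linear_combination -h6
          exact (map_eq_zero _).1 h5
        rw [h3, h7] at h4
        have h8 : B g = AlgHom.id Ω C := by
          refine Pool.Agent.Helper75.QC.hom_ext {u, s} hCt _ _ ?_
          rintro c (rfl | hc)
          · rw [h4.hu]
            simp
          · rw [Set.mem_singleton_iff] at hc
            rw [hc, h4.hs]
            simp
        rw [if_pos h2, mul_one, h8, T.map_id]
        exact LinearMap.trace_id L _
      · have h7 : β g = 1 := by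
          have h8 : β g * (β g + 1) = 0 := by linear_combination h5
          rcases mul_eq_zero.1 h8 with h9 | h9
          · exfalso
            apply h2
            rw [h6, h9, map_zero, add_zero]
          · linear_combination h9 - h2Ω
        rw [h3, h7] at h4
        have h8 : (T.map 1 (B g) : End L (T.H 1 C)) = -LinearMap.id := by
          refine LinearMap.ext fun z => ?_
          rw [h4.neg T.toBaseTheory hs hCt]
          rfl
        rw [if_neg h2, h8, map_neg, LinearMap.trace_id]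
        ring
    · have h3 : α g ≠ 0 := by
        intro h3
        apply h1
        rw [hα' g, h3, map_zero, add_zero]
      rw [if_neg h1, mul_zero]
      exact (hB g).trace_zero T.toBaseTheory hu hs hCt huniv (hα g) h3
  have h3 : ∑ g : Gp Ω x y, LinearMap.trace L (T.H 1 C) (T.map 1 (B g)) • T.map 2 (toHom g) z =
      (Module.finrank L (T.H 1 C) : L) • ∑ g : Gp Ω x y, cc L t v g • T.map 2 (toHom g) z := by
    rw [Finset.smul_sum]
    refine Finset.sum_congr rfl fun g _ => ?_
    rw [htr, smul_smul]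
  rw [h3] at hmem
  exact (Submodule.smul_mem_iff _ hD).1 hmem

end

end Pool.Agent.Helper73.QQ
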