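import Pool.Agent.Helper73.QQ.Good

/-!
# The coverings `t ^ 4 + t = b`, `w_i ^ 2 + w_i = c_i` or `t ^ 3 + c_i`
-/

set_option autoImplicit false

open IntermediateField Module

namespace Pool.Agent.Helper73.QQ

open Pool.Agent.Helper75.QC Pool.Agent.Helper73.QX Pool.Agent.Helper73.QW

section

variable {Ω L : Type} [Field Ω] [IsAlgClosed Ω] [Algebra (ZMod 2) Ω] [Field L]
  {K : Type} [Field K] [Algebra Ω K] {x y : K} {S : Set K}

/-- the sign -/
noncomputable def sg (L : Type) [Field L] (v : K) (g : Gp Ω x y) : L := by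
  classical
  exact if toHom g v = v then 1 else -1

omit [IsAlgClosed Ω] [Algebra (ZMod 2) Ω] in
theorem sg_one (v : K) : sg L v (1 : Gp Ω x y) = 1 := by
  unfold sg
  rw [if_pos]
  rw [toHom_one]
  rfl

omit [IsAlgClosed Ω] [Algebra (ZMod 2) Ω] in
theorem sg_add [CharP K 2] {v v' : K} {g : Gp Ω x y} (h : toHom g v = v ∨ toHom g v = v + 1)
    (h' : toHom g v' = v' ∨ toHom g v' = v' + 1) :
    sg L (v + v') g = sg L v g * sg L v' g := by
  have h2 : (2 : K) = 0 := CharTwo.two_eq_zero
  have hne : ∀ z : K, z + 1 ≠ z := fun z hz => by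
    have : (1 : K) = 0 := by linear_combination hz
    exact one_ne_zero this
  unfold sg
  rcases h with h | h <;> rcases h' with h' | h'
  · rw [map_add, h, h', if_pos rfl, if_pos rfl, if_pos rfl, one_mul]
  · rw [map_add, h, h', if_pos rfl, if_neg (hne v'), if_neg, one_mul]
    rw [← add_assoc]
    exact hne _
  · rw [map_add, h, h', if_pos rfl, if_neg (hne v), if_neg, mul_one]
    rw [add_right_comm]
    exact hne _
  · rw [map_add, h, h', if_neg (hne v), if_neg (hne v'), if_pos]
    · ring
    · linear_combination h2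

omit [IsAlgClosed Ω] [Algebra (ZMod 2) Ω] in
theorem sg_eq {v : K} {g : Gp Ω x y} (h : sg L v g ≠ -1) : toHom g v = v := by
  unfold sg at h
  by_contra h1
  rw [if_neg h1] at h
  exact h rfl

omit [IsAlgClosed Ω] [Algebra (ZMod 2) Ω] in
theorem sg_cases (v : K) (g : Gp Ω x y) : sg L v g = 1 ∨ sg L v g = -1 := by
  unfold sg
  split_ifs
  · exact Or.inl rfl
  · exact Or.inr rfl

omit [IsAlgClosed Ω] [Algebra (ZMod 2) Ω] in
theorem cc_eq (t v : K) (g : Gp Ω x y) (h : toHom g t = t) : cc L t v g = sg L v g := by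
  unfold cc sg
  rw [if_pos h]

omit [IsAlgClosed Ω] [Algebra (ZMod 2) Ω] in
theorem cc_zero (t v : K) (g : Gp Ω x y) (h : toHom g t ≠ t) : cc L t v g = 0 := by
  unfold cc
  rw [if_neg h]

omit [IsAlgClosed Ω] in
theorem shift_of {v : K} (hv : v ^ 2 + v ∈ adjoin Ω {x, y}) (g : Gp Ω x y) :
    toHom g v = v ∨ toHom g v = v + 1 := by
  have hchΩ : CharP Ω 2 := charP_of_injective_algebraMap (algebraMap (ZMod 2) Ω).injective 2
  have hch := char_two (Ω := Ω) K
  have h2 : (2 : K) = 0 := CharTwo.two_eq_zero
  have h1 := fix_of_mem (toHom g) (toHom_x g) (toHom_y g) hv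
  simp only [map_add, map_pow] at h1
  have h3 : (toHom g v - v) * (toHom g v - v - 1) = 0 := by
    linear_combination h1 + (v ^ 2 - v * toHom g v - toHom g v + v) * h2
  rcases mul_eq_zero.1 h3 with h | h
  · left
    linear_combination h
  · right
    linear_combination h

/-- the class of a sum -/
theorem shift_of' {t v : K} (hv : v ^ 2 + v + t ^ 3 ∈ adjoin Ω {x, y}) (g : Gp Ω x y)
    (ht : toHom g t = t) : toHom g v = v ∨ toHom g v = v + 1 := by
  have hchΩ : CharP Ω 2 := charP_of_injective_algebraMap (algebraMap (ZMod 2) Ω).injective 2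
  have hch := char_two (Ω := Ω) K
  have h2 : (2 : K) = 0 := CharTwo.two_eq_zero
  have h1 := fix_of_mem (toHom g) (toHom_x g) (toHom_y g) hv
  simp only [map_add, map_pow, ht] at h1
  have h3 : (toHom g v - v) * (toHom g v - v - 1) = 0 := by
    linear_combination h1 + (v ^ 2 - v * toHom g v - toHom g v + v) * h2
  rcases mul_eq_zero.1 h3 with h | h
  · left
    linear_combination h
  · right
    linear_combination h

/-- Every class is in the semisimple part. `D` is an additive set of functions on the plane. -/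
theorem QCov.mem_all [CharZero L] [IsAlgClosed L] (T : Theory 2 Ω L) {r : ℕ} {t : K}
    {w : Fin r → K} (hC : QCov Ω x y (insert t (Set.range w))) (D : AddSubmonoid K)
    (hD : ∀ c ∈ D, c ∈ adjoin Ω {x, y}) (hG0 : ∀ c ∈ D, GeoQ Ω x y 0 c)
    (hG1 : ∀ c ∈ D, GeoQ Ω x y (t ^ 4 + t) c)
    (hDt : ∀ c : Ω, algebraMap Ω K c * (t ^ 4 + t) ∈ D)
    (hw : ∀ i, w i ^ 2 + w i ∈ D ∨ w i ^ 2 + w i + t ^ 3 ∈ D) {e : ℕ} (he : Even e)
    {φ : K →ₐ[Ω] K} (hx : φ x = x ^ 2 ^ e) (hy : φ y = y ^ 2 ^ e) (ht : φ t = t ^ 2 ^ e)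
    (hφw : ∀ i, φ (w i) = w i ^ 2 ^ e) (z : T.H 2 K) :
    z ∈ ⨆ c, End.eigenspace (T.map 2 φ) c := by
  classical
  have hchΩ : CharP Ω 2 := charP_of_injective_algebraMap (algebraMap (ZMod 2) Ω).injective 2
  have hch := char_two (Ω := Ω) K
  have h2 : (2 : K) = 0 := CharTwo.two_eq_zero
  have h2Ω : (2 : Ω) = 0 := CharTwo.two_eq_zero
  have hfin := hC.galois.1
  have : Fintype (Gp Ω x y) := Fintype.ofFinite _
  have hS : ∀ s ∈ insert t (Set.range w), φ s = s ^ 2 ^ e := by
    rintro s (rfl | ⟨i, rfl⟩)
    · exact ht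
    · exact hφw i
  obtain ⟨W, hW⟩ : ∃ W, W = ⨆ c, End.eigenspace (T.map 2 φ) c := ⟨_, rfl⟩
  rw [← hW]
  have htD : t ^ 4 + t ∈ D := by
    have := hDt 1
    rwa [map_one, one_mul] at this
  have htk : t ^ 4 + t ∈ adjoin Ω {x, y} := hD _ htD
  -- the two kinds of classes
  have good0 : ∀ v : K, v ^ 2 + v ∈ D → ∑ g : Gp Ω x y, sg L v g • T.map 2 (toHom g) z ∈ W := by
    intro v hv
    have h1 := hC.good T (t := 0) (v := v) (by
      rw [zero_pow four_ne_zero, add_zero]
      exact zero_mem _) (by
      rw [zero_pow three_ne_zero, add_zero]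
      exact hD _ hv) (by
      rw [zero_pow four_ne_zero, add_zero, zero_pow three_ne_zero, add_zero]
      exact hG0 _ hv) he hx hy hS z
    rw [← hW] at h1
    have h3 : ∀ g : Gp Ω x y, cc L 0 v g = sg L v g := fun g => cc_eq 0 v g (map_zero _)
    simpa only [h3] using h1
  have good1 : ∀ v : K, v ^ 2 + v + t ^ 3 ∈ D →
      ∑ g : Gp Ω x y, cc L t v g • T.map 2 (toHom g) z ∈ W := by
    intro v hv
    have h1 := hC.good T (t := t) (v := v) htk (hD _ hv) (hG1 _ hv) he hx hy hS z
    rwa [← hW] at h1
  obtain ⟨ω, hω⟩ : ∃ ω : Ω, ω ^ 2 + ω + 1 = 0 := by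
    obtain ⟨ω, hω⟩ := IsAlgClosed.exists_root
      (Polynomial.X ^ 2 + Polynomial.X + Polynomial.C (1 : Ω)) (by
        have : (Polynomial.X ^ 2 + Polynomial.X + Polynomial.C (1 : Ω)).degree = 2 := by
          compute_degree!
        rw [this]
        norm_num)
    refine ⟨ω, ?_⟩
    simpa [Polynomial.IsRoot] using hω
  obtain ⟨o, ho⟩ : ∃ o, o = algebraMap Ω K ω := ⟨_, rfl⟩
  have ho2 : o ^ 2 + o + 1 = 0 := by
    rw [ho]
    simpa using congrArg (algebraMap Ω K) hω
  have ho3 : o ^ 3 = 1 := by linear_combination (o - 1) * ho2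
  obtain ⟨w1, hw1⟩ : ∃ w1, w1 = t ^ 2 + t := ⟨_, rfl⟩
  obtain ⟨w2, hw2⟩ : ∃ w2, w2 = o * t ^ 2 + o ^ 2 * t := ⟨_, rfl⟩
  have hw1' : w1 ^ 2 + w1 ∈ D := by
    have h1 : w1 ^ 2 + w1 = t ^ 4 + t := by
      rw [hw1]
      linear_combination (t ^ 3 + t ^ 2) * h2
    rw [h1]
    exact htD
  have hw2' : w2 ^ 2 + w2 ∈ D := by
    have h1 : w2 ^ 2 + w2 = algebraMap Ω K (ω ^ 2) * (t ^ 4 + t) := by
      rw [hw2, map_pow, ← ho]
      linear_combination (o * t ^ 2) * ho3 + (o ^ 3 * t ^ 3 + o * t ^ 2) * h2
    rw [h1]
    exact hDt _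
  -- the elements `v_s`
  obtain ⟨vs, hvs⟩ : ∃ vs : Finset (Fin r) → K, vs = fun s => ∑ i ∈ s, w i := ⟨_, rfl⟩
  have hcase : ∀ s : Finset (Fin r), vs s ^ 2 + vs s ∈ D ∨ vs s ^ 2 + vs s + t ^ 3 ∈ D := by
    intro s
    rw [hvs]
    induction s using Finset.induction_on with
    | empty =>
      left
      simp
    | insert i s hi ih =>
      show (∑ j ∈ insert i s, w j) ^ 2 + ∑ j ∈ insert i s, w j ∈ D ∨
        (∑ j ∈ insert i s, w j) ^ 2 + ∑ j ∈ insert i s, w j + t ^ 3 ∈ D
      have h0 : ∀ a b : K, (a + b) ^ 2 + (a + b) = (a ^ 2 + a) + (b ^ 2 + b) := by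
        intro a b
        linear_combination (a * b) * h2
      rw [Finset.sum_insert hi, h0]
      obtain ⟨q, hq⟩ : ∃ q, q = (∑ j ∈ s, w j) ^ 2 + ∑ j ∈ s, w j := ⟨_, rfl⟩
      have ih' : q ∈ D ∨ q + t ^ 3 ∈ D := by
        rw [hq]
        exact ih
      rw [← hq]
      rcases hw i with h1 | h1 <;> rcases ih' with h3 | h3
      · exact Or.inl (add_mem h1 h3)
      · right
        have := add_mem h1 h3
        rwa [← add_assoc] at this
      · right
        have := add_mem h1 h3
        rwa [add_right_comm] at this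
      · left
        have h4 := add_mem h1 h3
        have h5 : w i ^ 2 + w i + t ^ 3 + (q + t ^ 3) = w i ^ 2 + w i + q := by
          linear_combination (t ^ 3) * h2
        rwa [h5] at h4
  -- the sum over `s`
  have hsum : ∀ s : Finset (Fin r), ∑ g : Gp Ω x y, (4 * cc L t (vs s) g) •
      T.map 2 (toHom g) z ∈ W := by
    intro s
    rcases hcase s with h1 | h1
    · have hk := hD _ h1
      have h0 : ∀ a b : K, (a + b) ^ 2 + (a + b) = (a ^ 2 + a) + (b ^ 2 + b) := by
        intro a b
        linear_combination (a * b) * h2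
      have a0 := good0 _ h1
      have a1 := good0 (vs s + w1) (by
        rw [h0]
        exact add_mem h1 hw1')
      have a2 := good0 (vs s + w2) (by
        rw [h0]
        exact add_mem h1 hw2')
      have a3 := good0 (vs s + w1 + w2) (by
        rw [h0, h0]
        exact add_mem (add_mem h1 hw1') hw2')
      have h3 := add_mem (add_mem (add_mem a0 a1) a2) a3
      rw [← Finset.sum_add_distrib, ← Finset.sum_add_distrib, ← Finset.sum_add_distrib] at h3
      have h4 : ∀ g : Gp Ω x y, sg L (vs s) g • T.map 2 (toHom g) z +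
          sg L (vs s + w1) g • T.map 2 (toHom g) z + sg L (vs s + w2) g • T.map 2 (toHom g) z +
          sg L (vs s + w1 + w2) g • T.map 2 (toHom g) z =
          (4 * cc L t (vs s) g) • T.map 2 (toHom g) z := by
        intro g
        rw [← add_smul, ← add_smul, ← add_smul]
        congr 1
        have b0 := shift_of hk g
        have b1 := shift_of (hD _ hw1') g
        have b2 := shift_of (hD _ hw2') g
        have b01 : toHom g (vs s + w1) = vs s + w1 ∨ toHom g (vs s + w1) = vs s + w1 + 1 := by
          apply shift_of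
          rw [h0]
          exact hD _ (add_mem h1 hw1')
        rw [sg_add b01 b2, sg_add b0 b1, sg_add b0 b2]
        by_cases hgt : toHom g t = t
        · rw [cc_eq t _ g hgt]
          have c1 : sg L w1 g = 1 := by
            unfold sg
            rw [if_pos]
            rw [hw1, map_add, map_pow, hgt]
          have c2 : sg L w2 g = 1 := by
            unfold sg
            rw [if_pos]
            rw [hw2, ho, map_add, map_mul, map_mul, map_pow, map_pow, AlgHom.commutes, hgt]
          rw [c1, c2]
          ring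
        · rw [cc_zero t _ g hgt, mul_zero]
          have c3 : sg L w1 g = -1 ∨ sg L w2 g = -1 := by
            by_contra hcon
            push Not at hcon
            apply hgt
            have d1 := sg_eq hcon.1
            have d2 := sg_eq hcon.2
            rw [hw1, map_add, map_pow] at d1
            rw [hw2, ho, map_add, map_mul, map_mul, map_pow, map_pow, AlgHom.commutes, ← ho] at d2
            -- `o w1 + w2 = t`
            linear_combination o * d1 + d2 + (t - toHom g t) * ho2 +
              (o * t ^ 2 - o * toHom g t ^ 2 + (1 : K) * (toHom g t - t)) * h2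
          rcases c3 with c | c
          · rw [c]
            ring
          · rw [c]
            ring
      simpa only [h4] using h3
    · have h3 := Submodule.smul_mem W (4 : L) (good1 _ h1)
      rw [Finset.smul_sum] at h3
      simpa only [smul_smul] using h3
  have htot := Submodule.sum_mem W (t := (Finset.univ : Finset (Finset (Fin r))))
    (fun s _ => hsum s)
  rw [Finset.sum_comm] at htot
  have hval : ∀ g : Gp Ω x y, ∑ s : Finset (Fin r), (4 * cc L t (vs s) g) •
      T.map 2 (toHom g) z = if g = 1 then (4 * 2 ^ r : L) • z else 0 := by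
    intro g
    rw [← Finset.sum_smul]
    by_cases hgt : toHom g t = t
    · have b0 : ∀ i, toHom g (w i) = w i ∨ toHom g (w i) = w i + 1 := by
        intro i
        rcases hw i with h | h
        · exact shift_of (hD _ h) g
        · exact shift_of' (hD _ h) g hgt
      have b1 : ∀ s : Finset (Fin r), (toHom g (vs s) = vs s ∨ toHom g (vs s) = vs s + 1) ∧
          sg L (vs s) g = ∏ i ∈ s, sg L (w i) g := by
        intro s
        have hvs' : vs s = ∑ i ∈ s, w i := by rw [hvs]
        rw [hvs']
        clear hvs'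
        induction s using Finset.induction_on with
        | empty =>
          rw [Finset.sum_empty, Finset.prod_empty]
          refine ⟨Or.inl (map_zero _), ?_⟩
          unfold sg
          rw [if_pos (map_zero _)]
        | insert i s hi ih =>
          rw [Finset.sum_insert hi, Finset.prod_insert hi, sg_add (b0 i) ih.1, ih.2]
          refine ⟨?_, rfl⟩
          rw [map_add]
          obtain ⟨q, hq⟩ : ∃ q, q = ∑ i ∈ s, w i := ⟨_, rfl⟩
          have ih1 : toHom g q = q ∨ toHom g q = q + 1 := by
            rw [hq]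
            exact ih.1
          rw [← hq]
          rcases b0 i with h | h <;> rcases ih1 with h' | h'
          · left
            rw [h, h']
          · right
            rw [h, h', add_assoc]
          · right
            rw [h, h', add_right_comm]
          · left
            rw [h, h']
            linear_combination h2
      have b2 : ∑ s : Finset (Fin r), 4 * cc L t (vs s) g = 4 * ∏ i, (1 + sg L (w i) g) := by
        rw [← Finset.mul_sum]
        congr 1
        rw [Finset.prod_one_add, ← Finset.powerset_univ]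
        refine Finset.sum_congr rfl fun s _ => ?_
        rw [cc_eq t _ g hgt, (b1 s).2]
      rw [b2]
      split_ifs with hg
      · rw [hg]
        have b3 : ∀ i, (1 + sg L (w i) (1 : Gp Ω x y) : L) = 2 := by
          intro i
          rw [sg_one]
          norm_num
        simp only [b3, Finset.prod_const, Finset.card_univ, Fintype.card_fin]
        congr 1
        rw [toHom_one]
        exact LinearMap.congr_fun (T.map_id 2 K) z
      · have b3 : ∃ i, toHom g (w i) ≠ w i := by
          by_contra hcon
          push Not at hcon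
          apply hg
          apply toHom_injective
          refine Pool.Agent.Helper75.QC.hom_ext _ hC.top _ _ ?_
          rintro s ((rfl | hs) | (rfl | ⟨i, rfl⟩))
          · rw [toHom_x, toHom_x]
          · rw [Set.mem_singleton_iff] at hs
            rw [hs, toHom_y, toHom_y]
          · rw [hgt]
            rfl
          · rw [hcon i]
            rfl
        obtain ⟨i, hi⟩ := b3
        have b4 : 1 + sg L (w i) g = 0 := by
          unfold sg
          rw [if_neg hi]
          ring
        rw [Finset.prod_eq_zero (Finset.mem_univ i) b4, mul_zero, zero_smul]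
    · have b1 : ∀ s, cc L t (vs s) g = 0 := fun s => cc_zero t _ g hgt
      simp only [b1, mul_zero, Finset.sum_const_zero, zero_smul]
      rw [if_neg]
      rintro rfl
      apply hgt
      rw [toHom_one]
      rfl
  simp only [hval, Finset.sum_ite_eq', Finset.mem_univ, if_true] at htot
  have h4 : (4 * 2 ^ r : L) ≠ 0 := mul_ne_zero (by norm_num) (pow_ne_zero _ two_ne_zero)
  exact (Submodule.smul_mem_iff _ h4).1 htot

end

end Pool.Agent.Helper73.QQ
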