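import Pool.Agent.Helper73.QQ.Trace
import Pool.Agent.Helper75.QC.Coniv

/-!
# A finite group acting on a surface and on a curve

If the quotient of the product by the diagonal action is uniruled, the operator
`∑ g, tr (g | H¹(C)) g` maps the second cohomology of the surface into the semisimple part.
-/

set_option autoImplicit false

open IntermediateField Module TensorProduct

namespace Pool.Agent.Helper73.QQ

open Pool.Agent.Helper75.QC

section

variable {Ω L : Type} [Field Ω] [Field L]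

/-- a group `G` acts on `K` (by `A`) and on `C` (by `B`), and the automorphisms of `N` over `N0`
induce elements of `G` -/
theorem cross_sum (T : BaseTheory Ω L) {K C N : Type} [Field K] [Algebra Ω K] [Field C]
    [Algebra Ω C] [Field N] [Algebra Ω N] (a : K →ₐ[Ω] N) (b : C →ₐ[Ω] N)
    (N0 : IntermediateField Ω N) [FiniteDimensional N0 N] [IsGalois N0 N]
    (huni : Uniruled Ω N0 3) {G : Type} [Group G] [Fintype G] (A : G → (K →ₐ[Ω] K))
    (B : G → (C →ₐ[Ω] C)) (hA : ∀ g h, A (g * h) = (A g).comp (A h))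
    (hB : ∀ g h, B (g * h) = (B g).comp (B h))
    (h : ∀ τ : N →ₐ[N0] N, ∃ g : G, (τ.restrictScalars Ω).comp a = a.comp (A g) ∧
      (τ.restrictScalars Ω).comp b = b.comp (B g)) (t : T.H 2 K) (z : T.H 1 C) :
    ∑ g, T.cup N (T.map 2 a (T.map 2 (A g) t)) (T.map 1 b (T.map 1 (B g) z)) = 0 := by
  have hfix : ∀ τ : N →ₐ[N0] N, T.map 3 (τ.restrictScalars Ω)
      (∑ g, T.cup N (T.map 2 a (T.map 2 (A g) t)) (T.map 1 b (T.map 1 (B g) z))) =
      ∑ g, T.cup N (T.map 2 a (T.map 2 (A g) t)) (T.map 1 b (T.map 1 (B g) z)) := by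
    intro τ
    obtain ⟨s, e1, e2⟩ := h τ
    have m2 : ∀ g, T.map 2 (τ.restrictScalars Ω) (T.map 2 a (T.map 2 (A g) t)) =
        T.map 2 a (T.map 2 (A (s * g)) t) := by
      intro g
      have e3 : T.map 2 (τ.restrictScalars Ω) (T.map 2 a (T.map 2 (A g) t)) =
          T.map 2 ((τ.restrictScalars Ω).comp a) (T.map 2 (A g) t) :=
        (LinearMap.congr_fun (T.map_comp 2 a (τ.restrictScalars Ω)) _).symm
      have e4 : T.map 2 (a.comp (A s)) (T.map 2 (A g) t) =
          T.map 2 a (T.map 2 (A s) (T.map 2 (A g) t)) :=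
        LinearMap.congr_fun (T.map_comp 2 (A s) a) _
      have e5 : T.map 2 (A s) (T.map 2 (A g) t) = T.map 2 ((A s).comp (A g)) t :=
        (LinearMap.congr_fun (T.map_comp 2 (A g) (A s)) t).symm
      rw [e3, e1, e4, e5, hA]
    have m1 : ∀ g, T.map 1 (τ.restrictScalars Ω) (T.map 1 b (T.map 1 (B g) z)) =
        T.map 1 b (T.map 1 (B (s * g)) z) := by
      intro g
      have e3 : T.map 1 (τ.restrictScalars Ω) (T.map 1 b (T.map 1 (B g) z)) =
          T.map 1 ((τ.restrictScalars Ω).comp b) (T.map 1 (B g) z) :=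
        (LinearMap.congr_fun (T.map_comp 1 b (τ.restrictScalars Ω)) _).symm
      have e4 : T.map 1 (b.comp (B s)) (T.map 1 (B g) z) =
          T.map 1 b (T.map 1 (B s) (T.map 1 (B g) z)) :=
        LinearMap.congr_fun (T.map_comp 1 (B s) b) _
      have e5 : T.map 1 (B s) (T.map 1 (B g) z) = T.map 1 ((B s).comp (B g)) z :=
        (LinearMap.congr_fun (T.map_comp 1 (B g) (B s)) z).symm
      rw [e3, e2, e4, e5, hB]
    rw [map_sum]
    simp only [T.map_cup, m2, m1]
    exact Fintype.sum_equiv (Equiv.mulLeft s) _ _ fun g => rfl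
  obtain ⟨z', hz'⟩ := T.descent 3 N N0 _ hfix
  rw [← hz', T.uniruled 3 N0 huni z', map_zero]

theorem sum_trace_mem' {p : ℕ} (hp : p ≠ 0) [CharZero L] [IsAlgClosed L] (T : Theory p Ω L)
    {K C N : Type} [Field K] [Algebra Ω K] [Field C] [Algebra Ω C] [Field N] [Algebra Ω N]
    (a : K →ₐ[Ω] N) (b : C →ₐ[Ω] N) (x y : K) (v : C) (e : ℕ)
    (φ : K →ₐ[Ω] K) (ψ : C →ₐ[Ω] C) (hK : (⊤ : IntermediateField Ω K).FG)
    (hC : (⊤ : IntermediateField Ω C).FG) (hxy : ∀ k : K, k ∈ Acl Ω {x, y})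
    (hv : ∀ k : C, k ∈ Acl Ω {v}) (htr : Transcendental a.fieldRange (b v))
    (hφ : IsFrob (p ^ e) φ) (hψ : IsFrob (p ^ e) ψ) {G : Type} [Fintype G]
    (A : G → (K →ₐ[Ω] K)) (B : G → (C →ₐ[Ω] C)) (hA : ∀ g, (A g).comp φ = φ.comp (A g))
    (hB : ∀ g, (B g).comp ψ = ψ.comp (B g))
    (h0 : ∀ (t : T.H 2 K) (z : T.H 1 C),
      ∑ g, T.cup N (T.map 2 a (T.map 2 (A g) t)) (T.map 1 b (T.map 1 (B g) z)) = 0)
    (t : T.H 2 K) : ∑ g, LinearMap.trace L (T.H 1 C) (T.map 1 (B g)) • T.map 2 (A g) t ∈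
      ⨆ c, End.eigenspace (T.map 2 φ) c := by
  have : FiniteDimensional L (T.H 2 K) := T.fin 2 K hK
  have : FiniteDimensional L (T.H 1 C) := T.fin 1 C hC
  have hq : 0 < p ^ e := pow_pos (Nat.pos_of_ne_zero hp) e
  have i1 : Function.Injective (T.map 1 ψ) := T.inj 1 ψ (isFrob_algebraic hq hψ)
  have cA : ∀ g, Commute (T.map 2 (A g) : End L (T.H 2 K)) (T.map 2 φ) := by
    intro g
    have h1 := T.map_comp 2 φ (A g)
    have h2 := T.map_comp 2 (A g) φ
    rw [hA g, h2] at h1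
    exact h1.symm
  have cB : ∀ g, Commute (T.map 1 (B g) : End L (T.H 1 C)) (T.map 1 ψ) := by
    intro g
    have h1 := T.map_comp 1 ψ (B g)
    have h2 := T.map_comp 1 (B g) ψ
    rw [hB g, h2] at h1
    exact h1.symm
  refine sum_trace_mem (fun g => (T.map 2 (A g) : End L (T.H 2 K)))
    (fun g => (T.map 1 (B g) : End L (T.H 1 C))) (T.map 2 φ) (T.map 1 ψ) cA cB
    (T.weil C e ψ hC hψ) i1 ?_ t
  refine T.coniveau hp a b x y v e φ ψ hK hC hxy hv htr hφ hψ _ ?_ _
  intro ζ hζ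
  have h1 : diag (fun g => (T.map 2 (A g) : End L (T.H 2 K)))
      (fun g => (T.map 1 (B g) : End L (T.H 1 C))) ≤
      LinearMap.ker (TensorProduct.lift ((T.cup N).compl₁₂ (T.map 2 a) (T.map 1 b))) := by
    unfold diag
    rw [Submodule.span_le]
    rintro _ ⟨t, z, rfl⟩
    rw [SetLike.mem_coe, LinearMap.mem_ker, map_sum]
    simpa only [TensorProduct.lift.tmul, LinearMap.compl₁₂_apply] using h0 t z
  exact h1 hζ

end

end Pool.Agent.Helper73.QQ
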