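import Pool.Agent.Helper73.KT.Glue

/-!
# Contraction of a semisimple subspace of a tensor product
-/

set_option autoImplicit false

open Module TensorProduct

namespace Pool.Agent.Helper73.QQ

section

variable {L V Z : Type} [Field L] [AddCommGroup V] [Module L V] [AddCommGroup Z] [Module L Z]

/-- the contraction with a linear form -/
noncomputable def contr : Dual L Z →ₗ[L] V ⊗[L] Z →ₗ[L] V :=
  (LinearMap.llcomp L (V ⊗[L] Z) (V ⊗[L] L) V (TensorProduct.rid L V).toLinearMap) ∘ₗ
    (LinearMap.lTensorHom V : (Z →ₗ[L] L) →ₗ[L] (V ⊗[L] Z →ₗ[L] V ⊗[L] L))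

theorem contr_tmul (l : Dual L Z) (v : V) (z : Z) : contr l (v ⊗ₜ[L] z) = l z • v := by
  simp [contr]

theorem aeval_dualMap (Ψ : End L Z) (q : Polynomial L) (l : Dual L Z) (z : Z) :
    (Polynomial.aeval (LinearMap.dualMap Ψ : End L (Dual L Z)) q l) z =
      l (Polynomial.aeval Ψ q z) := by
  induction q using Polynomial.induction_on' with
  | add p q hp hq =>
    rw [map_add, map_add, LinearMap.add_apply, LinearMap.add_apply, LinearMap.add_apply, hp, hq,
      map_add]
  | monomial n c =>
    rw [Polynomial.aeval_monomial, Polynomial.aeval_monomial]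
    have h1 : ∀ (n : ℕ) (l : Dual L Z) (z : Z),
        (((LinearMap.dualMap Ψ : End L (Dual L Z)) ^ n) l) z = l ((Ψ ^ n) z) := by
      intro n
      induction n with
      | zero => intro l z; rfl
      | succ n ih =>
        intro l z
        rw [pow_succ, End.mul_apply, ih, pow_succ']
        rfl
    rw [Algebra.algebraMap_eq_smul_one, Algebra.algebraMap_eq_smul_one, smul_mul_assoc, one_mul,
      smul_mul_assoc, one_mul, LinearMap.smul_apply, LinearMap.smul_apply, LinearMap.smul_apply,
      h1, map_smul]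

theorem semisimple_dualMap [FiniteDimensional L Z] {Ψ : End L Z} (h : Ψ.IsSemisimple) :
    End.IsSemisimple (LinearMap.dualMap Ψ : End L (Dual L Z)) := by
  refine End.isSemisimple_of_squarefree_aeval_eq_zero h.minpoly_squarefree ?_
  refine LinearMap.ext fun l => LinearMap.ext fun z => ?_
  rw [aeval_dualMap, minpoly.aeval]
  simp

theorem contr_mem [IsAlgClosed L] [FiniteDimensional L V] [FiniteDimensional L Z] (Φ : End L V)
    (Ψ : End L Z) (hΨ : Ψ.IsSemisimple) (hinj : Function.Injective Ψ)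
    (P : Submodule L (V ⊗[L] Z)) (hP : ∀ t ∈ P, TensorProduct.map Φ Ψ t ∈ P)
    (hs : End.IsSemisimple ((TensorProduct.map Φ Ψ).restrict hP)) (l : Dual L Z)
    (t : V ⊗[L] Z) (ht : t ∈ P) : contr l t ∈ ⨆ c, Φ.eigenspace c := by
  have hP' : P ≤ ⨆ c, End.eigenspace (TensorProduct.map Φ Ψ) c := KT.le_of_semisimple hP hs
  have hl : l ∈ ⨆ c, End.eigenspace (LinearMap.dualMap Ψ : End L (Dual L Z)) c := by
    rw [(semisimple_dualMap hΨ).iSup_eigenspace_eq_top]
    exact Submodule.mem_top
  have ht' := hP' ht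
  clear ht
  induction hl using Submodule.iSup_induction' with
  | mem μ l hl =>
    rw [End.mem_eigenspace_iff] at hl
    by_cases hμ : μ = 0
    · have h1 : l = 0 := by
        refine LinearMap.ext fun z => ?_
        obtain ⟨z', rfl⟩ := (LinearMap.injective_iff_surjective.1 hinj) z
        have h2 := LinearMap.congr_fun hl z'
        rw [hμ, zero_smul] at h2
        exact h2
      rw [h1, map_zero, LinearMap.zero_apply]
      exact Submodule.zero_mem _
    · have h1 : ∀ t : V ⊗[L] Z, Φ (contr l t) = μ⁻¹ • contr l (TensorProduct.map Φ Ψ t) := by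
        intro t
        induction t using TensorProduct.induction_on with
        | zero => simp
        | tmul v z =>
          have h2 : l (Ψ z) = μ • l z := LinearMap.congr_fun hl z
          rw [TensorProduct.map_tmul, contr_tmul, contr_tmul, h2, map_smul, smul_smul, smul_eq_mul,
            ← mul_assoc, inv_mul_cancel₀ hμ, one_mul]
        | add t t' h h' => rw [map_add, map_add, h, h', map_add, map_add, smul_add]
      induction ht' using Submodule.iSup_induction' with
      | mem c t ht =>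
        rw [End.mem_eigenspace_iff] at ht
        refine Submodule.mem_iSup_of_mem (μ⁻¹ * c) ?_
        rw [End.mem_eigenspace_iff, h1, ht, map_smul, smul_smul]
      | zero =>
        rw [map_zero]
        exact Submodule.zero_mem _
      | add t t' _ _ h h' =>
        rw [map_add]
        exact Submodule.add_mem _ h h'
  | zero =>
    rw [map_zero, LinearMap.zero_apply]
    exact Submodule.zero_mem _
  | add l l' _ _ h h' =>
    rw [map_add, LinearMap.add_apply]
    exact Submodule.add_mem _ h h'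

/-- the elements `∑ g, ρ (g) t ⊗ σ (g) z` -/
def diag {G : Type} [Fintype G] (ρ : G → End L V) (σ : G → End L Z) :
    Submodule L (V ⊗[L] Z) :=
  Submodule.span L {ζ | ∃ (t : V) (z : Z), ζ = ∑ g, (ρ g t) ⊗ₜ[L] (σ g z)}

theorem diag_stable {G : Type} [Fintype G] (ρ : G → End L V) (σ : G → End L Z) (Φ : End L V)
    (Ψ : End L Z) (hρ : ∀ g, Commute (ρ g) Φ) (hσ : ∀ g, Commute (σ g) Ψ) (ζ : V ⊗[L] Z)
    (hζ : ζ ∈ diag ρ σ) : TensorProduct.map Φ Ψ ζ ∈ diag ρ σ := by
  have h : diag ρ σ ≤ (diag ρ σ).comap (TensorProduct.map Φ Ψ) := by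
    unfold diag
    rw [Submodule.span_le]
    rintro _ ⟨t, z, rfl⟩
    rw [SetLike.mem_coe, Submodule.mem_comap, map_sum]
    refine Submodule.subset_span ⟨Φ t, Ψ z, ?_⟩
    refine Finset.sum_congr rfl fun g _ => ?_
    have h1 : Φ (ρ g t) = ρ g (Φ t) := (LinearMap.congr_fun (hρ g).eq t).symm
    have h2 : Ψ (σ g z) = σ g (Ψ z) := (LinearMap.congr_fun (hσ g).eq z).symm
    rw [TensorProduct.map_tmul, h1, h2]
  exact h hζ

/-- `∑ g, tr (σ (g)) ρ (g) t` -/
theorem sum_trace_mem [IsAlgClosed L] [FiniteDimensional L V] [FiniteDimensional L Z]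
    {G : Type} [Fintype G] (ρ : G → End L V) (σ : G → End L Z) (Φ : End L V)
    (Ψ : End L Z) (hρ : ∀ g, Commute (ρ g) Φ) (hσ : ∀ g, Commute (σ g) Ψ) (hΨ : Ψ.IsSemisimple)
    (hinj : Function.Injective Ψ)
    (hs : End.IsSemisimple ((TensorProduct.map Φ Ψ).restrict (diag_stable ρ σ Φ Ψ hρ hσ)))
    (t : V) : ∑ g, LinearMap.trace L Z (σ g) • ρ g t ∈ ⨆ c, Φ.eigenspace c := by
  classical
  let b := Module.finBasis L Z
  have h1 : ∀ i, contr (b.coord i) (∑ g, (ρ g t) ⊗ₜ[L] (σ g (b i))) ∈ ⨆ c, Φ.eigenspace c :=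
    fun i => contr_mem Φ Ψ hΨ hinj _ (diag_stable ρ σ Φ Ψ hρ hσ) hs (b.coord i) _
      (Submodule.subset_span ⟨t, b i, rfl⟩)
  have h2 : ∑ g, LinearMap.trace L Z (σ g) • ρ g t =
      ∑ i, contr (b.coord i) (∑ g, (ρ g t) ⊗ₜ[L] (σ g (b i))) := by
    simp only [map_sum, contr_tmul]
    rw [Finset.sum_comm]
    refine Finset.sum_congr rfl fun g _ => ?_
    rw [← Finset.sum_smul]
    congr 1
    rw [LinearMap.trace_eq_matrix_trace L b, Matrix.trace]
    refine Finset.sum_congr rfl fun i _ => ?_
    rw [Matrix.diag_apply, LinearMap.toMatrix_apply]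
    rfl
  rw [h2]
  exact Submodule.sum_mem _ fun i _ => h1 i

end

end Pool.Agent.Helper73.QQ
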