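import Pool.Agent.Helper73.QQ.Sum
import Pool.Agent.Helper73.QQ.Galois
import Pool.Agent.Helper73.QQ.Curve
import Pool.Agent.Helper73.QX.Good

/-!
# The product of a covering of the plane and the curve `u ^ 2 + u = s ^ 3`
-/

set_option autoImplicit false

open IntermediateField Module

namespace Pool.Agent.Helper73.QQ

open Pool.Agent.Helper75.QC Pool.Agent.Helper73.QX Pool.Agent.Helper73.QW

/-- a covering of the plane whose generators satisfy `IsGen` -/
structure QCov (Ω : Type) [Field Ω] {K : Type} [Field K] [Algebra Ω K] (x y : K) (S : Set K) :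
    Prop where
  fin : S.Finite
  top : adjoin Ω ({x, y} ∪ S) = ⊤
  indep : AlgebraicIndependent Ω ![x, y]
  gen : ∀ s ∈ S, s ^ 4 + s ∈ adjoin Ω {x, y} ∨
    ∃ t ∈ insert 0 S, t ^ 4 + t ∈ adjoin Ω {x, y} ∧ s ^ 2 + s + t ^ 3 ∈ adjoin Ω {x, y}

/-- the elliptic threefold `Y ^ 2 + Y = X ^ 3 + B X + C` over the plane is uniruled -/
def GeoQ (Ω : Type) [Field Ω] {K : Type} [Field K] [Algebra Ω K] (x y B C : K) : Prop :=
  ∀ (N : Type) [Field N] [Algebra Ω N] (a : K →ₐ[Ω] N) (X Y : N),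
    Y ^ 2 + Y = X ^ 3 + a B * X + a C →
      Uniruled Ω (adjoin Ω {a x, a y, X, Y} : IntermediateField Ω N) 3

section

variable {Ω L : Type} [Field Ω] [IsAlgClosed Ω] [Algebra (ZMod 2) Ω] [Field L]
  {K : Type} [Field K] [Algebra Ω K] {x y : K} {S : Set K}

theorem QCov.galois [CharP Ω 2] (hC : QCov Ω x y S) :
    FiniteDimensional (adjoin Ω {x, y}) K ∧ IsGalois (adjoin Ω {x, y}) K := by
  refine galois_of_gen _ S hC.fin ?_ fun s hs => (hC.gen s hs).imp id fun ⟨t, _, h⟩ => ⟨t, h⟩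
  intro M hM hw
  rw [eq_top_iff, ← hC.top, adjoin_le_iff]
  rintro c ((rfl | hc) | hc)
  · exact hM (subset_adjoin Ω _ (by simp))
  · exact hM (subset_adjoin Ω _ (Or.inr hc))
  · exact hw hc

theorem QCov.exists_toHom [CharP Ω 2] (hC : QCov Ω x y S) (τ : K →ₐ[Ω] K)
    (hx : τ x = x) (hy : τ y = y) : ∃ σ : Gp Ω x y, toHom σ = τ := by
  have := hC.galois.1
  have h1 : ∀ c ∈ adjoin Ω {x, y}, τ c = c := fun c hc => fix_of_mem τ hx hy hc
  let τ' : K →ₐ[adjoin Ω {x, y}] K := { τ.toRingHom with commutes' := fun c => h1 c c.2 }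
  refine ⟨AlgEquiv.ofBijective τ' τ'.bijective, ?_⟩
  ext k
  rfl

omit [IsAlgClosed Ω] [Algebra (ZMod 2) Ω] in
theorem QCov.fg (hC : QCov Ω x y S) : (⊤ : IntermediateField Ω K).FG := by
  rw [← hC.top]
  exact fg_adjoin_of_finite (Set.Finite.union (Set.toFinite _) hC.fin)

omit [IsAlgClosed Ω] [Algebra (ZMod 2) Ω] in
theorem QCov.isFrob {e : ℕ} {p : ℕ} (hC : QCov Ω x y S) {φ : K →ₐ[Ω] K} (hx : φ x = x ^ p ^ e)
    (hy : φ y = y ^ p ^ e) (hS : ∀ s ∈ S, φ s = s ^ p ^ e) : IsFrob (p ^ e) φ := by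
  unfold IsFrob
  rw [eq_top_iff, ← hC.top, adjoin_le_iff]
  rintro v ((rfl | hv) | hv)
  · exact subset_adjoin _ _ hx
  · rw [Set.mem_singleton_iff] at hv
    rw [hv]
    exact subset_adjoin _ _ hy
  · exact subset_adjoin _ _ (hS v hv)

/-- the shifts of `t` and `v` -/
theorem exists_shifts [CharP Ω 2] {t v : K} (ht : t ^ 4 + t ∈ adjoin Ω {x, y})
    (hv : v ^ 2 + v + t ^ 3 ∈ adjoin Ω {x, y}) (τ : K →ₐ[Ω] K) (hx : τ x = x) (hy : τ y = y) :
    ∃ α β : Ω, α ^ 4 = α ∧ β ^ 2 + β = α ^ 3 ∧ τ t = t + algebraMap Ω K α ∧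
      τ v = v + algebraMap Ω K α ^ 2 * t + algebraMap Ω K β := by
  have h1 := fix_of_mem τ hx hy ht
  have h2 := fix_of_mem τ hx hy hv
  simp only [map_add, map_pow] at h1 h2
  obtain ⟨α, hα, h3⟩ := exists_four (Ω := Ω) h1
  rw [h3] at h2
  obtain ⟨β, hβ, h4⟩ := exists_two hα h2
  exact ⟨α, β, hα, hβ, h3, h4⟩

theorem QCov.sum_zero (T : BaseTheory Ω L) (hC : QCov Ω x y S) {t v : K}
    (ht : t ^ 4 + t ∈ adjoin Ω {x, y}) (hv : v ^ 2 + v + t ^ 3 ∈ adjoin Ω {x, y})
    (hG : GeoQ Ω x y (t ^ 4 + t) (v ^ 2 + v + t ^ 3))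
    {C N : Type} [Field C] [Algebra Ω C] [Field N] [Algebra Ω N] (u s : C)
    (hs : u ^ 2 - u = s ^ 3) (hCt : adjoin Ω {u, s} = ⊤)
    (a : K →ₐ[Ω] N) (b : C →ₐ[Ω] N)
    (hN : adjoin Ω (Set.range a ∪ {b u, b s}) = ⊤) (α β : Gp Ω x y → Ω)
    (hα : ∀ g, α g ^ 4 = α g) (hα' : ∀ g, toHom g t = t + algebraMap Ω K (α g))
    (hβ' : ∀ g, toHom g v = v + algebraMap Ω K (α g) ^ 2 * t + algebraMap Ω K (β g))
    (B : Gp Ω x y → (C →ₐ[Ω] C)) (hB : ∀ g, IsAuto u s (α g) (β g) (B g))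
    [Fintype (Gp Ω x y)] (z : T.H 2 K) (c : T.H 1 C) :
    ∑ g, T.cup N (T.map 2 a (T.map 2 (toHom g) z)) (T.map 1 b (T.map 1 (B g) c)) = 0 := by
  have hchΩ : CharP Ω 2 := charP_of_injective_algebraMap (algebraMap (ZMod 2) Ω).injective 2
  have hchK := char_two (Ω := Ω) K
  have hchN := char_two (Ω := Ω) N
  have h2N : (2 : N) = 0 := CharTwo.two_eq_zero
  have h2K : (2 : K) = 0 := CharTwo.two_eq_zero
  have h2Ω : (2 : Ω) = 0 := CharTwo.two_eq_zero
  obtain ⟨X, hX⟩ : ∃ X, X = b s + a t ^ 2 := ⟨_, rfl⟩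
  obtain ⟨Y, hY⟩ : ∃ Y, Y = b u + a t * b s + a v := ⟨_, rfl⟩
  have hbs : b s = X + a t ^ 2 := by
    rw [hX]
    linear_combination -a t ^ 2 * h2N
  have hbu : b u = Y + a t * b s + a v := by
    rw [hY]
    linear_combination (-a t * b s - a v) * h2N
  have hbb : b u ^ 2 - b u = b s ^ 3 := by
    rw [← map_pow, ← map_sub, hs, map_pow]
  have hXY : Y ^ 2 + Y = X ^ 3 + a (t ^ 4 + t) * X + a (v ^ 2 + v + t ^ 3) := by
    rw [hX, hY]
    simp only [map_add, map_pow]
    linear_combination hbb + (b u - a t ^ 3 + a t * b u * b s + a v * b u + a t * a v * b s -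
      2 * a t ^ 4 * b s - a t ^ 2 * b s ^ 2 - a t ^ 6) * h2N
  obtain ⟨N0, hN0⟩ : ∃ N0 : IntermediateField Ω N, N0 = adjoin Ω {a x, a y, X, Y} := ⟨_, rfl⟩
  have hx : a x ∈ N0 := by
    rw [hN0]
    exact subset_adjoin Ω _ (by simp)
  have hy : a y ∈ N0 := by
    rw [hN0]
    exact subset_adjoin Ω _ (by simp)
  have hXN : X ∈ N0 := by
    rw [hN0]
    exact subset_adjoin Ω _ (by simp)
  have hYN : Y ∈ N0 := by
    rw [hN0]
    exact subset_adjoin Ω _ (by simp)
  have hle : ∀ c ∈ adjoin Ω {x, y}, a c ∈ N0 := by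
    intro c hc
    have h3 : adjoin Ω {x, y} ≤ N0.comap a := by
      rw [adjoin_le_iff]
      rintro c (rfl | hc)
      · exact hx
      · rw [Set.mem_singleton_iff] at hc
        rw [hc]
        exact hy
    exact h3 hc
  have hra : ∀ M : IntermediateField Ω N, N0 ≤ M → a '' S ⊆ M → ∀ e, a e ∈ M := by
    intro M hM hS e
    have h3 : adjoin Ω ({x, y} ∪ S) ≤ M.comap a := by
      rw [adjoin_le_iff]
      rintro c ((rfl | hc) | hc)
      · exact hM hx
      · rw [Set.mem_singleton_iff] at hc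
        rw [hc]
        exact hM hy
      · exact hS ⟨c, hc, rfl⟩
    exact h3 (by rw [hC.top]; exact mem_top)
  obtain ⟨g1, g2⟩ := galois_of_gen N0 (a '' S) (hC.fin.image a) (by
    intro M hM hS
    have hbsM : b s ∈ M := by
      rw [hbs]
      exact add_mem (hM hXN) (pow_mem (hra M hM hS t) 2)
    rw [eq_top_iff, ← hN, adjoin_le_iff]
    rintro c (⟨e, rfl⟩ | rfl | hc)
    · exact hra M hM hS e
    · rw [hbu]
      exact add_mem (add_mem (hM hYN) (mul_mem (hra M hM hS t) hbsM)) (hra M hM hS v)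
    · rw [Set.mem_singleton_iff] at hc
      rw [hc]
      exact hbsM) (by
    rintro _ ⟨e, he, rfl⟩
    rcases hC.gen e he with h | ⟨t', -, h1, h2⟩
    · left
      have := hle _ h
      rwa [map_add, map_pow] at this
    · right
      have h3 := hle _ h1
      have h4 := hle _ h2
      simp only [map_add, map_pow] at h3 h4
      exact ⟨a t', h3, h4⟩)
  have hun : Uniruled Ω N0 3 := by
    rw [hN0]
    exact hG N a X Y hXY
  refine cross_sum T a b N0 hun (fun g : Gp Ω x y => toHom g) B (fun g h => toHom_mul g h) ?_ ?_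
    z c
  · intro g h
    have e1 : α (g * h) = α g + α h := by
      apply (algebraMap Ω K).injective
      have h3 := hα' (g * h)
      rw [toHom_mul, AlgHom.comp_apply, hα' h, map_add, hα' g, AlgHom.commutes] at h3
      rw [map_add]
      linear_combination -h3
    have e2 : β (g * h) = β g + β h + α h ^ 2 * α g := by
      apply (algebraMap Ω K).injective
      have h3 := hβ' (g * h)
      rw [toHom_mul, AlgHom.comp_apply, hβ' h, map_add, map_add, map_mul, map_pow, hβ' g, hα' g,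
        AlgHom.commutes, AlgHom.commutes, e1] at h3
      simp only [map_add, map_mul, map_pow] at h3 ⊢
      linear_combination -h3 - (algebraMap Ω K (α g) * algebraMap Ω K (α h) * t) * h2K
    have h4 := (hB g).comp (hB h)
    rw [← e1, ← e2] at h4
    exact (hB (g * h)).unique hCt h4
  · intro τ
    obtain ⟨τ', hτ'⟩ : ∃ τ' : N →ₐ[Ω] N, τ' = τ.restrictScalars Ω := ⟨_, rfl⟩
    have hfix : ∀ e ∈ N0, τ' e = e := by
      intro e he
      rw [hτ']
      exact τ.commutes ⟨e, he⟩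
    rw [← hτ']
    have hfour : ∀ t : K, t ^ 4 + t ∈ adjoin Ω {x, y} → ∃ α : Ω, α ^ 4 = α ∧
        τ' (a t) = a t + algebraMap Ω N α := by
      intro t ht
      apply exists_four
      have h3 := hfix _ (hle _ ht)
      simp only [map_add, map_pow] at h3
      exact h3
    obtain ⟨τK, hK⟩ := exists_restrict a τ' ({x, y} ∪ S) hC.top (by
      rintro e ((rfl | he) | he)
      · rw [hfix _ hx]
        exact ⟨e, rfl⟩
      · rw [Set.mem_singleton_iff] at he
        rw [he, hfix _ hy]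
        exact ⟨y, rfl⟩
      · have hΩ : ∀ c : Ω, algebraMap Ω N c ∈ a.fieldRange := fun c =>
          ⟨algebraMap Ω K c, a.commutes c⟩
        rcases hC.gen e he with h | ⟨t', -, h1, h2⟩
        · obtain ⟨γ, -, h3⟩ := hfour e h
          rw [h3]
          exact add_mem ⟨e, rfl⟩ (hΩ γ)
        · obtain ⟨γ, hγ, h3⟩ := hfour t' h1
          have h4 := hfix _ (hle _ h2)
          simp only [map_add, map_pow] at h4
          rw [h3] at h4
          obtain ⟨δ, -, h5⟩ := exists_two hγ h4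
          rw [h5]
          exact add_mem (add_mem ⟨e, rfl⟩ (mul_mem (pow_mem (hΩ γ) 2) ⟨t', rfl⟩)) (hΩ δ))
    have hKe : ∀ e, a (τK e) = τ' (a e) := by
      intro e
      have := DFunLike.congr_fun hK e
      rw [AlgHom.comp_apply, AlgHom.comp_apply] at this
      exact this.symm
    have hKx : τK x = x := by
      apply a.injective
      exact (hKe x).trans (hfix _ hx)
    have hKy : τK y = y := by
      apply a.injective
      exact (hKe y).trans (hfix _ hy)
    obtain ⟨g, hg⟩ := hC.exists_toHom τK hKx hKy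
    refine ⟨g, ?_, ?_⟩
    · rw [hg]
      exact hK
    · have h3 : τ' (a t) = a t + algebraMap Ω N (α g) := by
        rw [← hKe, ← hg, hα' g, map_add, AlgHom.commutes]
      have h4 : τ' (a v) = a v + algebraMap Ω N (α g) ^ 2 * a t + algebraMap Ω N (β g) := by
        rw [← hKe, ← hg, hβ' g, map_add, map_add, map_mul, map_pow, AlgHom.commutes,
          AlgHom.commutes]
      have h5 : τ' (b s) = b s + algebraMap Ω N (α g) ^ 2 := by
        rw [hbs, map_add, map_pow, hfix _ hXN, h3]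
        linear_combination (a t * algebraMap Ω N (α g)) * h2N
      refine Pool.Agent.Helper75.QC.hom_ext {u, s} hCt _ _ ?_
      rintro e (rfl | he)
      · rw [AlgHom.comp_apply, AlgHom.comp_apply, (hB g).hu, hbu]
        simp only [map_add, map_mul, map_pow, AlgHom.commutes]
        rw [hfix _ hYN, h3, h4, h5, hbu]
        linear_combination (algebraMap Ω N (α g) ^ 2 * a t) * h2N
      · rw [Set.mem_singleton_iff] at he
        rw [he, AlgHom.comp_apply, AlgHom.comp_apply, (hB g).hs, h5, map_add, map_pow,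
          AlgHom.commutes]

end

end Pool.Agent.Helper73.QQ
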